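import Pool.Agent.P.MP_e4ac67_pr.E.Ren
import Pool.Agent.P.MP_e4ac67_pr.A.GDef

/-! Directed keys, the grid as a graph, and the two inputs of the end game. -/

open scoped ENNReal

namespace Pool.Agent.P.MP_e4ac67_pr

/-- directed keys: one coin per vertex (`m = true`) or one coin per dart (`m = false`) -/
def kk {V : Type} (m : Bool) (a b : V) : V × V := if m then (b, b) else (a, b)

theorem kk_snd {V : Type} (m : Bool) (a b : V) : (kk m a b).2 = b := by cases m <;> rfl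

theorem kk_fst {V : Type} (m : Bool) (a b : V) : (kk m a b).1 = a ∨ (kk m a b).1 = b := by
  cases m <;> simp [kk]

theorem kk_mem {V : Type} (m : Bool) {S : Finset V} {a b : V} (ha : a ∈ S) (hb : b ∈ S) :
    kk m a b ∈ S ×ˢ S := by cases m <;> simp [kk, ha, hb]

theorem kk_map {V W : Type} (m : Bool) (f : V → W) (a b : V) :
    Prod.map f f (kk m a b) = kk m (f a) (f b) := by cases m <;> rfl

namespace Gr.Grid
variable (G : Grid)

/-- the grid as a graph -/
def gr : SimpleGraph Pt where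
  Adj := G.Adj
  symm := ⟨fun _ _ h => h.symm⟩
  loopless := ⟨fun _ h => h.ne rfl⟩

/-- the cone of `y` up to `n` levels above `y` -/
def Hs (y : Pt) (n : ℕ) : Set Pt := {v | G.Cn 0 y v ∧ v.1 ≤ y.1 + n}

/-- from a grandchild of `y` the expected number of points reached on the top level of the
truncated cone stays above `c` -/
def Grow (m : Bool) (p c : ℝ≥0∞) : Prop :=
  ∀ y, 1 ≤ y.1 → G.Cn 0 (0, 0) y → ∃ o, G.Cn 0 y o ∧ o.1 = y.1 + 2 ∧ ∀ n, ∃ Ω : Finset (Pt × Pt),
    c ≤ ∑ x ∈ Finset.Icc (G.lr y (n + 3)) (G.rr y (n + 3)),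
      EX Ω p fun ω => ind (Reach G.gr (kk m) (G.Hs y (n + 3)) o ω (y.1 + (n + 3), x))

/-- uniform decay of the connection probabilities -/
def Decay (m : Bool) (p : ℝ≥0∞) : Prop :=
  ∀ ε : ℝ≥0∞, ε ≠ 0 → ∃ n, ∀ y o x, 1 ≤ y.1 → G.Cn 0 y o → o.1 = y.1 + 2 →
    ∀ Ω : Finset (Pt × Pt),
      (EX Ω p fun ω => ind (Reach G.gr (kk m) (G.Hs y (n + 3)) o ω (y.1 + (n + 3), x))) ≤ ε

end Gr.Grid
end Pool.Agent.P.MP_e4ac67_pr
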