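import Pool.Agent.P.MP_e4ac67_pr.E.Dir

/-! A tree of cones gives a uniform lower bound for the expected number of exit keys. -/

open scoped ENNReal

namespace Pool.Agent.P.MP_e4ac67_pr

section
variable {V K : Type} {G : SimpleGraph V} {key : V → V → K} {p : ℝ≥0∞} {Ω : Finset K}

theorem EX_one_mem (hp : p ≤ 1) {a : K} (ha : a ∈ Ω) : (EX Ω p fun s => ind (a ∈ s)) = p := by
  classical
  simpa [EX_const hp] using EX_mem (f := fun _ => 1) hp ha fun _ => rfl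

theorem reach_one (hp : p ≤ 1) {F : Set V} {x y : V} (h : G.Adj x y) (hy : y ∈ F)
    (hk : key x y ∈ Ω) : p ≤ EX Ω p fun ω => ind (Reach G key F x ω y) :=
  (EX_one_mem hp hk).ge.trans (EX_mono fun _ _ => ind_mono (Reach.single h hy))

theorem NE_monotone (S : Finset V) (F : Set V) (y : V) : Monotone (NE G key S F y) :=
  fun _ _ h => ENNReal.tsum_le_tsum fun _ => ind_mono (DCT.exit_mono h)

theorem EX_sum {ι α : Type} {Ω : Finset ι} (A : Finset α) (F : α → Finset ι → ℝ≥0∞) :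
    (EX Ω p fun s => ∑ a ∈ A, F a s) = ∑ a ∈ A, EX Ω p (F a) := by
  simp only [EX, Finset.mul_sum]
  exact Finset.sum_comm

theorem EX_mono_p {ι : Type} {Ω : Finset ι} {q : ℝ≥0∞} (h : p ≤ q) (hq : q ≤ 1)
    {f : Finset ι → ℝ≥0∞} (hf : Monotone f) : EX Ω p f ≤ EX Ω q f := by
  classical
  induction Ω using Finset.induction_on generalizing f with
  | empty => simp [EX_empty]
  | insert a s ha ih =>
    simp only [EX_insert ha]
    refine (ih (Hr.mono_av a p hf)).trans (EX_mono fun t _ => ?_)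
    obtain ⟨d, rfl⟩ := exists_add_of_le h
    have e : 1 - p = 1 - (p + d) + d := by
      rw [tsub_add_eq_tsub_tsub, tsub_add_cancel_of_le
        (ENNReal.le_sub_of_add_le_left (ne_top_of_le_ne_top
          ENNReal.one_ne_top (le_self_add.trans hq)) hq)]
    rw [e]
    calc _ = p * f (insert a t) + (1 - (p + d)) * f t + d * f t := by ring
      _ ≤ p * f (insert a t) + (1 - (p + d)) * f t + d * f (insert a t) := by
          gcongr
          exact hf (Finset.subset_insert a t)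
      _ = _ := by ring

theorem boost_le {γ : ℝ} (hγ : 1 < γ) {δ : ℝ≥0∞} (h0 : δ ≠ 0) :
    ∃ ε : ℝ≥0∞, ε ≠ 0 ∧ ∀ a b : ℝ≥0∞, a ≤ b ^ γ → a ≤ ε → a ≤ δ * b := by
  have h1 : 0 < γ - 1 := by linarith
  refine ⟨δ * δ ^ (γ - 1)⁻¹, mul_ne_zero h0 (ENNReal.rpow_pos_of_nonneg (pos_iff_ne_zero.2 h0)
    (by positivity)).ne', fun a b h k => ?_⟩
  rcases le_total b (δ ^ (γ - 1)⁻¹) with e | e
  · calc a ≤ b ^ (γ - 1 + 1) := by simpa using h
      _ = b ^ (γ - 1) * b := by rw [ENNReal.rpow_add_of_nonneg _ _ h1.le zero_le_one]; simp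
      _ ≤ (δ ^ (γ - 1)⁻¹) ^ (γ - 1) * b := by gcongr
      _ = _ := by rw [← ENNReal.rpow_mul, inv_mul_cancel₀ h1.ne']; simp
  · exact k.trans (by gcongr)

end

namespace Gr.Grid
variable {G : Grid} {m : Bool} {p : ℝ≥0∞}

theorem cn_iff {y : Pt} {i : ℕ} {x : ℤ} :
    G.Cn 0 y (y.1 + i, x) ↔ G.lr y i ≤ x ∧ x ≤ G.rr y i := by simp [Cn]

theorem cn_ex {y v : Pt} (h : G.Cn 0 y v) :
    ∃ i x, v = (y.1 + i, x) ∧ G.lr y i ≤ x ∧ x ≤ G.rr y i := by
  obtain ⟨i, e⟩ := Nat.exists_eq_add_of_le h.1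
  obtain ⟨n, x⟩ := v
  obtain rfl : n = y.1 + i := e
  exact ⟨i, x, rfl, cn_iff.1 h⟩

theorem cn_self (y : Pt) : G.Cn 0 y y := (cn_iff (i := 0)).2 ⟨le_rfl, le_rfl⟩

theorem lr_le_rr (y : Pt) (i : ℕ) : G.lr y i ≤ G.rr y i := by
  induction i with
  | zero => exact le_rfl
  | succ i ih => exact G.A_le (by omega)

theorem cn_trans {y z v : Pt} (h : G.Cn 0 y z) (k : G.Cn 0 z v) : G.Cn 0 y v := by
  obtain ⟨i, x, rfl, h1, h2⟩ := cn_ex h
  obtain ⟨j, w, rfl, k1, k2⟩ := cn_ex k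
  have : ∀ j, G.lr y (i + j) ≤ G.lr (y.1 + i, x) j ∧ G.rr (y.1 + i, x) j ≤ G.rr y (i + j) := by
    intro j
    induction j with
    | zero => exact ⟨h1, h2⟩
    | succ j ih =>
      rw [← add_assoc, lr, lr, rr, rr, add_assoc]
      exact ⟨G.A_le (by omega), G.A_le ih.2⟩
  simp only [add_assoc]
  exact cn_iff.2 ⟨(this j).1.trans k1, k2.trans (this j).2⟩

theorem cn_gap {n : ℕ} {a b : ℤ} (h : a + 2 ≤ b) (j : ℕ) : G.rr (n, a) j + 2 ≤ G.lr (n, b) j := by
  induction j with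
  | zero => exact h
  | succ j ih =>
    have h1 := G.gap2 (n + j) (G.lr (n, b) j - 1)
    have h2 : G.A (n + j) (G.rr (n, a) j) ≤ G.A (n + j) (G.lr (n, b) j - 1 - 1) := G.A_le (by omega)
    simp only [lr, rr]
    omega

theorem cn_near {n : ℕ} {a b : ℤ} {v : Pt} (h : G.Cn 0 (n, a) v) (k : G.Cn 0 (n, b) v) :
    b < a + 2 := by
  by_contra e
  have := cn_gap (G := G) (n := n) (not_lt.1 e) (v.1 - n)
  have := h.2.2
  have := k.2.1
  simp only at *
  omega

theorem cn_parent {y : Pt} {i : ℕ} {x : ℤ} (h : G.Cn 0 y (y.1 + (i + 1), x)) :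
    ∃ w, G.Cn 0 y (y.1 + i, w) ∧ G.Adj (y.1 + i, w) (y.1 + (i + 1), x) := by
  obtain ⟨h1, h2⟩ := cn_iff.1 h
  rw [lr] at h1
  rw [rr] at h2
  obtain ⟨h3, h4⟩ := G.lp_spec (y.1 + i) x
  rcases le_or_gt (G.lr y i) (G.lp (y.1 + i) x) with e | e
  · have := (G.A_lt _).lt_iff_lt.1 (h3.trans_le h2)
    exact ⟨_, cn_iff.2 ⟨e, by omega⟩, Or.inr (Or.inl ⟨rfl, h3.le, h4⟩)⟩
  · exact ⟨_, cn_iff.2 ⟨le_rfl, lr_le_rr y i⟩, Or.inr (Or.inl ⟨rfl, h1, h4.trans (G.A_le e.le)⟩)⟩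

theorem hs_mono (y : Pt) {i j : ℕ} (h : i ≤ j) : G.Hs y i ⊆ G.Hs y j :=
  fun _ k => ⟨k.1, k.2.trans (by omega)⟩

theorem cn_path (hp : p ≤ 1) {y : Pt} {S : Finset Pt} (i : ℕ) (hS : G.Hs y i ⊆ S) {x : ℤ}
    (h : G.Cn 0 y (y.1 + i, x)) :
    p ^ i ≤ EX (S ×ˢ S) p fun ω => ind (Reach G.gr (kk m) (G.Hs y i) y ω (y.1 + i, x)) := by
  induction i generalizing x with
  | zero =>
    obtain ⟨h1, h2⟩ := cn_iff.1 h
    obtain rfl : x = y.2 := le_antisymm h2 h1
    simp only [pow_zero, add_zero, Prod.mk.eta, ind_of Reach.base, EX_const hp, le_refl]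
  | succ i ih =>
    obtain ⟨w, h1, h2⟩ := cn_parent h
    have k : G.Hs y i ⊆ G.Hs y (i + 1) := hs_mono y (by omega)
    rw [pow_succ]
    exact (mul_le_mul' ((ih (k.trans hS) h1).trans (EX_mono fun _ _ => ind_mono fun r =>
      r.mono2 k le_rfl)) (reach_one (G := G.gr) (F := G.Hs y (i + 1)) hp h2 ⟨h, le_rfl⟩
      (kk_mem m (hS (k ⟨h1, le_rfl⟩)) (hS ⟨h, le_rfl⟩)))).trans (reach_chain hp _ _ _ _)

theorem near_exit (hp : p ≤ 1) {y : Pt} {S : Finset Pt} (hy : y ∈ S) (i : ℕ) : G.Hs y i ⊆ S ∨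
    p ^ i ≤ EX (S ×ˢ S) p (NE G.gr (kk m) S {v | G.Cn 0 y v} y) := by
  induction i with
  | zero =>
    refine Or.inl fun v hv => ?_
    obtain ⟨j, x, rfl, h1, h2⟩ := cn_ex hv.1
    obtain rfl : j = 0 := by have := hv.2; simp at this; omega
    obtain rfl : x = y.2 := le_antisymm h2 h1
    exact hy
  | succ i ih =>
    have k : p ^ (i + 1) ≤ p ^ i := pow_le_pow_of_le_one zero_le hp (by omega)
    refine ih.elim (fun h => ?_) fun h => Or.inr (k.trans h)
    refine (Classical.em _).imp_right fun h' => ?_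
    obtain ⟨v, hv, hn⟩ := Set.not_subset.1 h'
    obtain ⟨j, x, rfl, -⟩ := cn_ex hv.1
    obtain rfl : j = i + 1 := by
      have := hv.2
      have : ¬y.1 + j ≤ y.1 + i := fun e => hn (h ⟨hv.1, e⟩)
      simp only at *
      omega
    obtain ⟨w, h1, h2⟩ := cn_parent hv.1
    refine k.trans ((cn_path (m := m) hp i h h1).trans (EX_mono fun s _ => ?_))
    exact (ind_mono fun r => ⟨_, _, _, r.mono2 (fun u hu => ⟨h hu, hu.1⟩) le_rfl, h2, hn, hv.1,
      rfl⟩).trans (ind_exists_le _)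

theorem cone_NE (hp : p ≤ 1) {N : ℕ} (hN : 0 < N) {S : Finset Pt}
    (h : ∀ y, 1 ≤ y.1 → G.Cn 0 (0, 0) y → G.Hs y N ⊆ S →
      2 ≤ ∑ x ∈ Finset.Icc (G.lr y N) (G.rr y N),
        EX (S ×ˢ S) p fun ω => ind (Reach G.gr (kk m) (G.Hs y N) y ω (y.1 + N, x)))
    (d : ℕ) : ∀ y ∈ S, 1 ≤ y.1 → G.Cn 0 (0, 0) y → S.sup Prod.fst ≤ y.1 + d →
      p ^ N ≤ EX (S ×ˢ S) p (NE G.gr (kk m) S {v | G.Cn 0 y v} y) := by
  induction d using Nat.strong_induction_on with
  | _ d ih =>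
    intro y hy h1 h0 hd
    refine (near_exit hp hy N).elim (fun hS => ?_) id
    have key : ∀ X ⊆ Finset.Icc (G.lr y N) (G.rr y N), (∀ a ∈ X, ∀ b ∈ X, a % 2 = b % 2) →
        1 ≤ (∑ x ∈ X, EX (S ×ˢ S) p fun ω =>
          ind (Reach G.gr (kk m) (G.Hs y N) y ω (y.1 + N, x))) →
        p ^ N ≤ EX (S ×ˢ S) p (NE G.gr (kk m) S {v | G.Cn 0 y v} y) := by
      intro X hX h2 h3
      have hc : ∀ x ∈ X, G.Cn 0 y (y.1 + N, x) := fun x hx => cn_iff.2 (Finset.mem_Icc.1 (hX hx))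
      calc p ^ N ≤ (∑ x ∈ X, EX (S ×ˢ S) p fun ω =>
            ind (Reach G.gr (kk m) (G.Hs y N) y ω (y.1 + N, x))) * p ^ N :=
            le_mul_of_one_le_left' h3
        _ ≤ ∑ x ∈ X, EX (S ×ˢ S) p fun ω => ind (Reach G.gr (kk m) (G.Hs y N) y ω (y.1 + N, x)) *
              NE G.gr (kk m) S {v | G.Cn 0 (y.1 + N, x) v} (y.1 + N, x) ω := by
            rw [Finset.sum_mul]
            refine Finset.sum_le_sum fun x hx => le_trans (mul_le_mul_right ?_ _)
              (EX_harris hp (reach_monotone _ _ _) (NE_monotone _ _ _))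
            have h4 : (y.1 + N, x) ∈ S := hS ⟨hc x hx, le_rfl⟩
            have h5 : y.1 + N ≤ S.sup Prod.fst := Finset.le_sup (f := Prod.fst) h4
            exact ih (d - N) (by omega) _ h4 (by omega) (cn_trans h0 (hc x hx))
              (by simp only; omega)
        _ ≤ _ := by
            rw [← EX_sum]
            refine EX_mono fun s _ => ?_
            simp only [NE, ← ENNReal.tsum_mul_left, ← ind_and]
            rw [← Summable.tsum_finsetSum fun _ _ => ENNReal.summable]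
            refine ENNReal.tsum_le_tsum fun κ => le_trans ?_ (tsum_ind_le_of_unique
              (fun x => x ∈ X ∧ Reach G.gr (kk m) (G.Hs y N) y s (y.1 + N, x) ∧
                Exit G.gr (kk m) S {v | G.Cn 0 (y.1 + N, x) v} (y.1 + N, x) s κ) ?_ ?_)
            · exact le_trans (Finset.sum_le_sum fun x hx => ind_mono fun r => And.intro hx r)
                (ENNReal.sum_le_tsum X)
            · rintro x ⟨hx, r, u, v, k1, k2, k3, k4, k5⟩
              refine ⟨u, v, Reach.trans (r.mono2 (fun w hw => ?_) le_rfl) (k1.mono2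
                (fun w hw => ?_) le_rfl), k2, k3, cn_trans (hc x hx) k4, k5⟩
              exacts [⟨hS hw, hw.1⟩, ⟨hw.1, cn_trans (hc x hx) hw.2⟩]
            · rintro a b ⟨ha, -, u, v, -, -, -, k4, rfl⟩ ⟨hb, -, u', v', -, -, -, l4, e⟩
              obtain rfl : v' = v := by simpa [kk_snd] using congrArg Prod.snd e
              have := cn_near k4 l4
              have := cn_near l4 k4
              have := h2 a ha b hb
              omega
    have h2 := h y h1 h0 hS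
    rw [← Finset.sum_filter_add_sum_filter_not _ fun x => x % 2 = 0] at h2
    by_contra hc
    refine absurd h2 (not_le.2 ?_)
    refine (ENNReal.add_lt_add (not_le.1 fun e => hc (key _ (Finset.filter_subset _ _) ?_ e))
      (not_le.1 fun e => hc (key _ (Finset.filter_subset _ _) ?_ e))).trans_eq one_add_one_eq_two <;>
    · intro a ha b hb
      have := (Finset.mem_filter.1 ha).2
      have := (Finset.mem_filter.1 hb).2
      omega

/-- growth and decay at `p` give branching at a larger density -/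
theorem branch {c p' : ℝ≥0∞} {γ : ℝ} (hγ : 1 < γ) (hp : p ≤ p' ^ γ) (h0 : p' ≠ 0) (h1 : p' ≤ 1)
    (hc : c ≠ 0) (hg : G.Grow m p c) (hd : G.Decay m p) : ∃ N, 0 < N ∧ ∀ (S : Finset Pt) (y : Pt),
      1 ≤ y.1 → G.Cn 0 (0, 0) y → G.Hs y N ⊆ S → 2 ≤ ∑ x ∈ Finset.Icc (G.lr y N) (G.rr y N),
        EX (S ×ˢ S) p' fun ω => ind (Reach G.gr (kk m) (G.Hs y N) y ω (y.1 + N, x)) := by
  have h2 : p' ^ γ ≤ 1 := ENNReal.rpow_le_one h1 (by linarith)
  have h3 : min c 1 ≠ 0 := (lt_min (pos_iff_ne_zero.2 hc) one_pos).ne'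
  obtain ⟨ε, e0, he⟩ := boost_le hγ (δ := min c 1 * (2⁻¹ * p' ^ 2))
    (mul_ne_zero h3 (mul_ne_zero (by simp) (pow_ne_zero 2 h0)))
  obtain ⟨n, hn⟩ := hd ε e0
  refine ⟨n + 3, by omega, fun S y y1 y0 hS => ?_⟩
  obtain ⟨o, o1, o2, hg⟩ := hg y y1 y0
  obtain ⟨Ω, hΩ⟩ := hg n
  have o3 : o ∈ G.Hs y (n + 3) := ⟨o1, by omega⟩
  have k1 : p' ^ 2 ≤ EX (S ×ˢ S) p' fun ω => ind (Reach G.gr (kk m) (G.Hs y (n + 3)) y ω o) := by
    obtain ⟨l, x⟩ := o
    obtain rfl : l = y.1 + 2 := o2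
    exact (cn_path (m := m) h1 2 ((hs_mono y (by omega)).trans hS) o1).trans
      (EX_mono fun _ _ => ind_mono fun r => r.mono2 (hs_mono y (by omega)) le_rfl)
  have k2 : min c 1 * 1 ≤ min c 1 * (2⁻¹ * ∑ x ∈ Finset.Icc (G.lr y (n + 3)) (G.rr y (n + 3)),
      EX (S ×ˢ S) p' fun ω => ind (Reach G.gr (kk m) (G.Hs y (n + 3)) y ω (y.1 + (n + 3), x))) := by
    rw [mul_one, Finset.mul_sum, Finset.mul_sum]
    refine (min_le_left _ _).trans (hΩ.trans (Finset.sum_le_sum fun x _ => ?_))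
    refine (he _ (EX (S ×ˢ S) p' fun ω => ind (Reach G.gr (kk m) (G.Hs y (n + 3)) o ω
      (y.1 + (n + 3), x))) ?_ (hn y o x y1 o1 o2 Ω)).trans ?_
    · refine le_trans ?_ (EX_boost hγ.le h1 fun _ _ k r => r.mono2 le_rfl k)
      refine le_trans ?_ (EX_mono_p hp h2 (reach_monotone _ _ _))
      refine (EX_mono_set (hp.trans h2) (Finset.subset_union_left (s₂ := S ×ˢ S))
        fun _ _ k => reach_monotone _ _ _ k).trans (le_of_eq ?_)
      exact EX_reach_set (key := kk m) (hp.trans h2) o3 (fun R => ind ((y.1 + (n + 3), x) ∈ R))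
        (fun a ha b hb _ => Finset.mem_union_right _ (kk_mem m (hS ha) (hS hb)))
        fun a ha b hb _ => kk_mem m (hS ha) (hS hb)
    · rw [mul_assoc, mul_assoc]
      exact mul_le_mul_right (mul_le_mul_right ((mul_le_mul_left k1 _).trans
        (reach_chain h1 _ _ _ _)) _) _
  have k3 := (ENNReal.mul_le_mul_iff_right h3 (ne_top_of_le_ne_top ENNReal.one_ne_top
    (min_le_right _ _))).1 k2
  have := mul_le_mul_right k3 2
  rwa [mul_one, ← mul_assoc, ENNReal.mul_inv_cancel (by simp) (by simp), one_mul] at this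

end Gr.Grid
end Pool.Agent.P.MP_e4ac67_pr
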