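import Pool.Agent.P.MP_e4ac67_pr.E.Gad

/-! Uniform decay of connection probabilities, by binary trees of closed cuts. -/

open scoped ENNReal

namespace Pool.Agent.P.MP_e4ac67_pr

section
variable {ι : Type} [DecidableEq ι] {Ω : Finset ι} {p : ℝ≥0∞} {A B : Finset ι → Prop}
  {P Q : ι → Prop}

/-- the event depends only on the variables satisfying `P` -/
def Dp (A : Finset ι → Prop) (P : ι → Prop) : Prop := ∀ a, ¬P a → ∀ s, A (insert a s) ↔ A s

theorem Dp.mono (h : Dp A P) (k : ∀ a, P a → Q a) : Dp A Q := fun a e => h a (mt (k a) e)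

theorem Dp.and (h : Dp A P) (k : Dp B P) : Dp (fun s => A s ∧ B s) P :=
  fun a e s => and_congr (h a e s) (k a e s)

theorem Dp.or (h : Dp A P) (k : Dp B P) : Dp (fun s => A s ∨ B s) P :=
  fun a e s => or_congr (h a e s) (k a e s)

theorem Dp.not (h : Dp A P) : Dp (fun s => ¬A s) P := fun a e s => not_congr (h a e s)

theorem dp_notMem {b : ι} (h : P b) : Dp (fun s => b ∉ s) P := fun a e s => by
  have : b ≠ a := fun e' => e (e' ▸ h)
  simp [this]

theorem EX_and_indep (hp : p ≤ 1) (h : Dp A P) (k : Dp B Q) (d : ∀ a, P a → ¬Q a) :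
    (EX Ω p fun s => ind (A s ∧ B s)) = (EX Ω p fun s => ind (A s)) * EX Ω p fun s => ind (B s) := by
  simp only [ind_and]
  exact EX_indep hp fun a => (Classical.em (P a)).symm.imp (fun e s => ind_congr (h a e s))
    fun e s => ind_congr (k a (d a e) s)

theorem EX_or_indep (hp : p ≤ 1) (h : Dp A P) (k : Dp B Q) (d : ∀ a, P a → ¬Q a) :
    par (EX Ω p fun s => ind (A s)) (EX Ω p fun s => ind (B s)) ≤
      EX Ω p fun s => ind (A s ∨ B s) := by
  rw [par, ← EX_ind_not hp, ← EX_and_indep hp h.not k d, ← EX_add]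
  refine EX_mono fun s _ => ?_
  by_cases e : A s
  · rw [ind_of e, ind_of_not fun j => j.1 e, add_zero, ind_of (Or.inl e)]
  · rw [ind_of_not e, zero_add]
    exact ind_mono fun j => Or.inr j.2

omit [DecidableEq ι] in
theorem EX_and_anti (hp : p ≤ 1) (h : ∀ s t, s ⊆ t → A t → A s) (k : ∀ s t, s ⊆ t → B t → B s) :
    (EX Ω p fun s => ind (A s)) * (EX Ω p fun s => ind (B s)) ≤ EX Ω p fun s => ind (A s ∧ B s) := by
  simp only [ind_and]
  exact EX_harris_anti hp (ind_antitone h) (ind_antitone k)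

theorem EX_closed (hp : p ≤ 1) (a : ι) : 1 - p ≤ EX Ω p fun s => ind (a ∉ s) := by
  by_cases h : a ∈ Ω
  · rw [EX_ind_not hp, EX_one_mem hp h]
  · exact tsub_le_self.trans ((EX_const hp 1).ge.trans
      (EX_mono fun s hs => (ind_of fun e => h (hs e)).ge))

theorem EX_all_closed (hp : p ≤ 1) (C : Finset ι) :
    (1 - p) ^ C.card ≤ EX Ω p fun s => ind (∀ a ∈ C, a ∉ s) := by
  induction C using Finset.induction_on with
  | empty => simp [ind, EX_const hp]
  | insert a C ha ih =>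
    simp only [Finset.card_insert_of_notMem ha, pow_succ', Finset.forall_mem_insert]
    exact (mul_le_mul' (EX_closed hp a) ih).trans (EX_and_anti hp (fun _ _ e k k' => k (e k'))
      fun _ _ e k b hb k' => k b hb (e k'))

end

namespace Gr.Grid
variable (G : Grid) (m s : Bool)

/-- key of the dart from `a` to `b` (`s = true`) or from `b` to `a` -/
def dk (a b : Pt) : Pt × Pt := if s then kk m a b else kk m b a

/-- a closed cut of height `h` starting between `(n, u)` and `(n, u + 1)` -/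
def TE : ℕ → ℕ → ℤ → Finset (Pt × Pt) → Prop
  | 0, n, u, ω => dk m s (n, u) (n, u + 1) ∉ ω
  | h + 1, n, u, ω => dk m s (n, u) (n, u + 1) ∉ ω ∧
      ((dk m s (n, u) (n + 1, G.A n u) ∉ ω ∧ TE h (n + 1) (G.A n u - 1) ω) ∨
        (dk m s (n + 1, G.A n u) (n, u + 1) ∉ ω ∧ TE h (n + 1) (G.A n u) ω))

/-- the binary tree of gaps -/
inductive Nd (r : Pt) : Pt → Prop
  | base : Nd r r
  | left {n : ℕ} {u : ℤ} : Nd r (n, u) → Nd r (n + 1, G.A n u - 1)
  | right {n : ℕ} {u : ℤ} : Nd r (n, u) → Nd r (n + 1, G.A n u)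

/-- the gap owning a key -/
def own (κ : Pt × Pt) : Pt :=
  if κ.2.1 < κ.1.1 then (κ.1.1, if s then κ.1.2 else κ.1.2 - 1)
  else (κ.2.1, if s then κ.2.2 - 1 else κ.2.2)

variable {G m s}

theorem Nd.trans {a b c : Pt} (h : G.Nd a b) (k : G.Nd b c) : G.Nd a c := by
  induction k with
  | base => exact h
  | left _ ih => exact ih.left
  | right _ ih => exact ih.right

theorem Nd.le {a b : Pt} (h : G.Nd a b) : a.1 ≤ b.1 := by
  induction h with
  | base => exact le_rfl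
  | left _ ih => exact ih.trans (Nat.le_succ _)
  | right _ ih => exact ih.trans (Nat.le_succ _)

theorem Nd.inv {a b : Pt} (h : G.Nd a b) : b = a ∨ ∃ n u, G.Nd a (n, u) ∧ b.1 = n + 1 ∧
    G.A n u - 1 ≤ b.2 ∧ b.2 ≤ G.A n u := by
  cases h with
  | base => exact Or.inl rfl
  | left h => exact Or.inr ⟨_, _, h, rfl, le_rfl, by simp⟩
  | right h => exact Or.inr ⟨_, _, h, rfl, by simp, le_rfl⟩

theorem Nd.sep {a a' : Pt} {d : ℕ} (hd : 1 ≤ d) (h1 : a.1 = a'.1) (h2 : a.2 + d ≤ a'.2) (l : ℕ) :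
    ∀ b b' : Pt, G.Nd a b → G.Nd a' b' → b.1 = l → b'.1 = l → b.2 + d ≤ b'.2 := by
  induction l with
  | zero =>
    intro b b' h h' e e'
    rcases h.inv with rfl | ⟨n, u, -, k, -⟩
    · rcases h'.inv with rfl | ⟨n, u, -, k, -⟩
      · exact h2
      · omega
    · omega
  | succ l ih =>
    intro b b' h h' e e'
    rcases h.inv with rfl | ⟨n, u, k1, k2, k3, k4⟩ <;>
      rcases h'.inv with rfl | ⟨n', u', j1, j2, j3, j4⟩
    · exact h2
    · have := j1.le; simp only at this; omega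
    · have := k1.le; simp only at this; omega
    · obtain rfl : l = n := by omega
      obtain rfl : l = n' := by omega
      have a1 := G.A_gap l u d
      have a2 : G.A l (u + d) ≤ G.A l u' := G.A_le (ih _ _ k1 j1 rfl rfl)
      omega

theorem Nd.split {a b : Pt} (h : G.Nd a b) {l : ℕ} (h1 : a.1 ≤ l) (h2 : l ≤ b.1) :
    ∃ x, G.Nd a (l, x) ∧ G.Nd (l, x) b := by
  induction h with
  | base => exact ⟨a.2, by rw [le_antisymm h2 h1]; exact ⟨.base, .base⟩⟩
  | @left n u h ih =>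
    rcases h2.lt_or_eq with e | rfl
    · exact (ih (Nat.le_of_lt_succ e)).imp fun x k => ⟨k.1, k.2.left⟩
    · exact ⟨_, h.left, .base⟩
  | @right n u h ih =>
    rcases h2.lt_or_eq with e | rfl
    · exact (ih (Nat.le_of_lt_succ e)).imp fun x k => ⟨k.1, k.2.right⟩
    · exact ⟨_, h.right, .base⟩

theorem TE.anti {h n : ℕ} {u : ℤ} {ω ω' : Finset (Pt × Pt)} (e : ω ⊆ ω') (k : G.TE m s h n u ω') :
    G.TE m s h n u ω := by
  induction h generalizing n u with
  | zero => exact fun j => k (e j)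
  | succ h ih =>
    exact ⟨fun j => k.1 (e j), k.2.imp (fun j => ⟨fun i => j.1 (e i), ih j.2⟩)
      fun j => ⟨fun i => j.1 (e i), ih j.2⟩⟩

theorem TE.lat {h n : ℕ} {u : ℤ} {ω : Finset (Pt × Pt)} (k : G.TE m s h n u ω) :
    dk m s (n, u) (n, u + 1) ∉ ω := by
  cases h
  exacts [k, k.1]

theorem dp_TE (h n : ℕ) (u : ℤ) : Dp (G.TE m s h n u) fun κ => G.Nd (n, u) (own s κ) := by
  have h0 : ∀ (n : ℕ) (u : ℤ), G.Nd (n, u) (own s (dk m s (n, u) (n, u + 1))) := fun n u => by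
    cases m <;> cases s <;> simpa [own, dk, kk] using Nd.base
  induction h generalizing n u with
  | zero => exact dp_notMem (P := fun κ => G.Nd (n, u) (own s κ)) (h0 n u)
  | succ h ih =>
    refine Dp.and (dp_notMem (P := fun κ => G.Nd (n, u) (own s κ)) (h0 n u)) (Dp.or
      (Dp.and (dp_notMem ?_) ((ih _ _).mono fun _ e => Nd.base.left.trans e))
      (Dp.and (dp_notMem ?_) ((ih _ _).mono fun _ e => Nd.base.right.trans e)))
    · cases m <;> cases s <;> simp only [own, dk, kk] <;> simp <;>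
        first | exact Nd.base | exact Nd.base.left
    · cases m <;> cases s <;> simp only [own, dk, kk] <;> simp <;>
        first | exact Nd.base | exact Nd.base.right

theorem TE_prob {p : ℝ≥0∞} (hp : p ≤ 1) (hβ : 3 ≤ 5 * ((1 - p) * if m then 1 else 1 - p))
    (Ω : Finset (Pt × Pt)) (h n : ℕ) (u : ℤ) : 3⁻¹ ≤ EX Ω p fun ω => ind (G.TE m s h n u ω) := by
  have e3 : (3 : ℝ≥0∞) * 3⁻¹ = 1 := ENNReal.mul_inv_cancel (by simp) (by simp)
  have b1 : (if m then 1 else 1 - p : ℝ≥0∞) ≤ 1 := by split_ifs <;> simp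
  have key : ∀ x : ℝ≥0∞, x ≤ 1 → 3⁻¹ ≤ (1 - p) * x * (1 + (1 - x * 3⁻¹)) * 3⁻¹ ∨
      ¬3 ≤ 5 * ((1 - p) * x) := fun x hx => by
    refine (Classical.em _).symm.symm.imp_left fun e => le_mul_of_one_le_left' ?_
    have e1 : 2 * 3⁻¹ ≤ 1 - x * 3⁻¹ := ENNReal.le_sub_of_add_le_right
      (ENNReal.mul_ne_top (ne_top_of_le_ne_top ENNReal.one_ne_top hx) (by simp)) (by
        calc 2 * 3⁻¹ + x * 3⁻¹ ≤ 2 * 3⁻¹ + 1 * 3⁻¹ := by gcongr
          _ = 3 * 3⁻¹ := by ring
          _ = 1 := e3)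
    calc (1 : ℝ≥0∞) = 3 * 3⁻¹ := e3.symm
      _ ≤ 5 * ((1 - p) * x) * 3⁻¹ := by gcongr
      _ = (1 - p) * x * (3 * 3⁻¹ + 2 * 3⁻¹) := by ring
      _ ≤ _ := by rw [e3]; gcongr
  have k := (key _ b1).resolve_right (not_not.2 hβ)
  induction h generalizing n u with
  | zero =>
    refine le_trans ?_ (EX_closed hp _)
    refine (ENNReal.mul_le_mul_iff_right (a := 5 * 3) (by simp) (by finiteness)).1 ?_
    calc (5 : ℝ≥0∞) * 3 * 3⁻¹ = 5 := by rw [mul_assoc, e3, mul_one]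
      _ ≤ 3 * 3 := by norm_num
      _ ≤ 5 * ((1 - p) * 1) * 3 := by gcongr; exact hβ.trans (by gcongr)
      _ = _ := by ring
  | succ h ih =>
    have aux : ∀ (κ : Pt × Pt) (v : ℤ), (if m then 1 else 1 - p) * 3⁻¹ ≤
        EX Ω p fun ω => ind ((m = false → κ ∉ ω) ∧ G.TE m s h (n + 1) v ω) := fun κ v => by
      refine le_trans (mul_le_mul' ?_ (ih _ _)) (EX_and_anti hp
        (fun _ _ e k j i => k j (e i)) fun _ _ => TE.anti)
      cases m
      · simpa using EX_closed hp κ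
      · simp [ind, EX_const hp]
    have dp : ∀ (κ : Pt × Pt) (v : ℤ), (m = false → own s κ = (n + 1, v)) →
        Dp (fun ω => (m = false → κ ∉ ω) ∧ G.TE m s h (n + 1) v ω)
          fun κ => G.Nd (n + 1, v) (own s κ) := fun κ v e => by
      refine Dp.and (fun a ha t => imp_congr_right fun j => ?_) (dp_TE _ _ _)
      exact dp_notMem (P := fun κ => G.Nd (n + 1, v) (own s κ)) (e j ▸ Nd.base) a ha t
    have h1 := (par_mono (aux _ _) (EX_ind_le_one hp _) (aux _ _) (EX_ind_le_one hp _)).trans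
      (EX_or_indep hp (dp (dk m s (n, u) (n + 1, G.A n u)) (G.A n u - 1)
        (by rintro rfl; cases s <;> simp [own, dk, kk]))
        (dp (dk m s (n + 1, G.A n u) (n, u + 1)) (G.A n u)
          (by rintro rfl; cases s <;> simp [own, dk, kk])) fun a e e' => by
        have := Nd.sep (d := 1) (a := (n + 1, G.A n u - 1)) (a' := (n + 1, G.A n u)) le_rfl rfl
          (by simp) _ _ _ e e' rfl rfl
        omega)
    refine k.trans (le_trans (le_of_eq (by rw [par]; ring)) ((mul_le_mul' (EX_closed hp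
      (dk m s (n, u) (n, u + 1))) h1).trans ((EX_and_anti hp (fun _ _ e k j => k (e j))
        fun _ _ e k => k.imp (fun j => ⟨fun i i' => j.1 i (e i'), j.2.anti e⟩)
          fun j => ⟨fun i i' => j.1 i (e i'), j.2.anti e⟩).trans (EX_mono fun ω _ => ind_mono ?_))))
    rintro ⟨j0, j⟩
    refine ⟨j0, j.imp (fun j => ⟨?_, j.2⟩) fun j => ⟨?_, j.2⟩⟩ <;> have := j.2.lat <;> cases m
    · exact j.1 rfl
    · cases s <;> simp_all [dk, kk]
    · exact j.1 rfl
    · cases s <;> simp_all [dk, kk]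

/-- the cut as a function of the level -/
theorem TE.cut {h n : ℕ} {u : ℤ} {ω : Finset (Pt × Pt)} (k : G.TE m s h n u ω) :
    ∃ c : ℕ → ℤ, c n = u ∧ (∀ l, n ≤ l → l ≤ n + h → G.Nd (n, u) (l, c l)) ∧
      ∀ a b : Pt, n ≤ a.1 → a.1 ≤ n + h → n ≤ b.1 → b.1 ≤ n + h → G.Adj a b → a.2 ≤ c a.1 →
        c b.1 < b.2 → dk m s a b ∉ ω := by
  induction h generalizing n u with
  | zero =>
    refine ⟨fun _ => u, rfl, fun l h1 h2 => by rw [le_antisymm h2 h1]; exact .base, ?_⟩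
    rintro ⟨a1, a2⟩ ⟨b1, b2⟩ h1 h2 h3 h4 h5 h6 h7
    rw [adj_iff] at h5
    simp only at *
    obtain ⟨rfl, rfl, rfl, rfl⟩ : a1 = n ∧ b1 = n ∧ a2 = u ∧ b2 = u + 1 := by omega
    exact k
  | succ h ih =>
    obtain ⟨v, k1, k2, k3⟩ : ∃ v, G.TE m s h (n + 1) v ω ∧ G.Nd (n, u) (n + 1, v) ∧
        ((v = G.A n u - 1 ∧ dk m s (n, u) (n + 1, G.A n u) ∉ ω) ∨
          (v = G.A n u ∧ dk m s (n + 1, G.A n u) (n, u + 1) ∉ ω)) :=
      k.2.elim (fun j => ⟨_, j.2, Nd.base.left, Or.inl ⟨rfl, j.1⟩⟩)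
        fun j => ⟨_, j.2, Nd.base.right, Or.inr ⟨rfl, j.1⟩⟩
    obtain ⟨c, c1, c2, c3⟩ := ih k1
    refine ⟨fun l => if l = n then u else c l, by simp, fun l h1 h2 => ?_, ?_⟩
    · rcases h1.lt_or_eq with e | rfl
      · simp only [if_neg e.ne']
        exact k2.trans (c2 l e (by omega))
      · simpa using Nd.base
    rintro ⟨a1, a2⟩ ⟨b1, b2⟩ h1 h2 h3 h4 h5 h6 h7
    simp only at h1 h2 h3 h4 h6 h7
    split_ifs at h6 h7 with e1 e2 e2
    · rw [adj_iff] at h5
      simp only at h5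
      obtain ⟨rfl, rfl, rfl, rfl⟩ : a1 = n ∧ b1 = n ∧ a2 = u ∧ b2 = u + 1 := by omega
      exact k.1
    · subst e1
      rw [adj_iff] at h5
      simp only at h5
      obtain rfl : b1 = a1 + 1 := by omega
      have a0 : G.A a1 a2 ≤ G.A a1 u := G.A_le h6
      have : G.A a1 u ≤ G.A a1 a2 := by omega
      obtain rfl : a2 = u := le_antisymm h6 ((G.A_lt _).le_iff_le.1 this)
      obtain rfl : b2 = G.A a1 a2 := by omega
      exact k3.elim (·.2) fun j => by omega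
    · subst e2
      rw [adj_iff] at h5
      simp only at h5
      obtain rfl : a1 = b1 + 1 := by omega
      have a0 : G.A b1 u ≤ G.A b1 (b2 - 1) := G.A_le (by omega)
      have : G.A b1 (b2 - 1) ≤ G.A b1 u := by omega
      obtain rfl : b2 = u + 1 := by have := (G.A_lt _).le_iff_le.1 this; omega
      rw [add_sub_cancel_right] at h5
      obtain rfl : a2 = G.A b1 u := by omega
      exact k3.elim (fun j => by omega) (·.2)
    · exact c3 _ _ (by omega) (by omega) (by omega) (by omega) h5 h6 h7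

theorem exists_anc (L : ℕ) (x : ℤ) : ∃ a : ℕ → ℤ, a L = x ∧
    ∀ l < L, G.A l (a l - 1) < a (l + 1) ∧ a (l + 1) ≤ G.A l (a l) := by
  induction L generalizing x with
  | zero => exact ⟨fun _ => x, rfl, fun _ h => by omega⟩
  | succ L ih =>
    obtain ⟨a, h1, h2⟩ := ih (G.lp L x)
    refine ⟨fun l => if l = L + 1 then x else a l, by simp, fun l hl => ?_⟩
    rcases (Nat.le_of_lt_succ hl).lt_or_eq with e | rfl
    · simpa [hl.ne, e.ne] using h2 l e
    · simpa [h1] using G.lp_spec l x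

theorem Nd.far {L : ℕ} {a : ℕ → ℤ}
    (ha : ∀ l < L, G.A l (a l - 1) < a (l + 1) ∧ a (l + 1) ≤ G.A l (a l)) {r w : Pt}
    (h : G.Nd r w) (hw : w.1 ≤ L) :
    (r.2 + 3 ≤ a r.1 → w.2 + 3 ≤ a w.1 ∧ (r.1 < w.1 → w.2 + 5 ≤ a w.1)) ∧
      (a r.1 + 3 ≤ r.2 → a w.1 + 3 ≤ w.2 ∧ (r.1 < w.1 → a w.1 + 5 ≤ w.2)) := by
  have aux : ∀ n u, n < L → (u + 3 ≤ a n → G.A n u + 5 ≤ a (n + 1)) ∧
      (a n + 3 ≤ u → a (n + 1) + 6 ≤ G.A n u) := fun n u hn => by
    have h1 := ha n hn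
    refine ⟨fun e => ?_, fun e => ?_⟩
    · have h2 := G.A_gap n u 2
      have h3 : G.A n (u + (2 : ℕ)) ≤ G.A n (a n - 1) := G.A_le (by omega)
      omega
    · have h2 := G.A_gap n (a n) 3
      have h3 : G.A n (a n + (3 : ℕ)) ≤ G.A n u := G.A_le (by omega)
      omega
  induction h with
  | base => exact ⟨fun e => ⟨e, fun k => by omega⟩, fun e => ⟨e, fun k => by omega⟩⟩
  | @left n u _ ih =>
    have := ih (Nat.le_of_succ_le hw)
    have := aux n u hw
    simp only at *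
    omega
  | @right n u _ ih =>
    have := ih (Nat.le_of_succ_le hw)
    have := aux n u hw
    simp only at *
    omega

variable (G m) in
/-- keys of the darts entering the base of the cut region -/
noncomputable def bot (j : ℕ) (x : ℤ) : Finset (Pt × Pt) :=
  (Finset.range 6 ×ˢ Finset.range 2).image fun i =>
    kk m (j, G.lp j (x - 2 + i.1) + i.2) (j + 1, x - 2 + i.1)

variable (G m) in
/-- the blocking event at level `j + 1` -/
def Blk (h j : ℕ) (x : ℤ) (ω : Finset (Pt × Pt)) : Prop :=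
  (∀ κ ∈ G.bot m j x, κ ∉ ω) ∧ G.TE m true h (j + 1) (x - 3) ω ∧ G.TE m false h (j + 1) (x + 3) ω

/-- the upper end of a key -/
def tp (κ : Pt × Pt) : Pt := if κ.2.1 < κ.1.1 then κ.1 else κ.2

theorem tp_own (s : Bool) (κ : Pt × Pt) :
    (tp κ).1 = (own s κ).1 ∧ (own s κ).2 ≤ (tp κ).2 ∧ (tp κ).2 ≤ (own s κ).2 + 1 := by
  cases s <;> unfold tp own <;> split_ifs <;> simp_all

variable (G) in
def Zn (j : ℕ) (x : ℤ) (κ : Pt × Pt) : Prop :=
  ∃ u w, G.Nd (j + 1, u) w ∧ (tp κ).1 = w.1 ∧ w.2 ≤ (tp κ).2 ∧ (tp κ).2 ≤ w.2 + 1 ∧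
    x - 3 ≤ u ∧ u ≤ x + 3 ∧ (u = x - 3 ∨ u = x + 3 ∨ w.1 = j + 1)

theorem dp_Blk (h j : ℕ) (x : ℤ) : Dp (G.Blk m h j x) (G.Zn j x) := by
  refine Dp.and (fun a ha t => forall₂_congr fun κ hκ => dp_notMem (P := G.Zn j x) ?_ a ha t)
    (Dp.and ((dp_TE _ _ _).mono fun κ e => ?_) ((dp_TE _ _ _).mono fun κ e => ?_))
  · obtain ⟨⟨i, i'⟩, hi, rfl⟩ := Finset.mem_image.1 hκ
    simp only [Finset.mem_product, Finset.mem_range] at hi
    refine ⟨x - 2 + i, _, .base, ?_⟩
    cases m <;> simp [tp, kk] <;> omega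
  · exact ⟨_, _, e, (tp_own _ κ).1, (tp_own _ κ).2.1, (tp_own _ κ).2.2, by omega⟩
  · exact ⟨_, _, e, (tp_own _ κ).1, (tp_own _ κ).2.1, (tp_own _ κ).2.2, by omega⟩

theorem Zn.disj {L : ℕ} {a : ℕ → ℤ}
    (ha : ∀ l < L, G.A l (a l - 1) < a (l + 1) ∧ a (l + 1) ≤ G.A l (a l)) {j j' : ℕ} (h : j < j')
    (h' : j' + 1 ≤ L) {κ : Pt × Pt} (k : G.Zn j (a (j + 1)) κ) (k' : G.Zn j' (a (j' + 1)) κ) :
    False := by
  obtain ⟨u, w, k1, k2, k3, k4, k5, k6, k7⟩ := k
  obtain ⟨u', w', l1, l2, l3, l4, l5, l6, -⟩ := k'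
  have h1 := l1.le
  obtain ⟨x, x1, x2⟩ := k1.split (l := j' + 1) (by simp; omega) (by simp at h1; omega)
  have h2 := x1.far ha h'
  simp only at h1 h2
  rcases k7 with e | e | e
  · have := Nd.sep (d := 2) (a := (j' + 1, x)) (a' := (j' + 1, u')) (by omega) rfl (by simp; omega)
      _ _ _ x2 l1 rfl (by omega)
    omega
  · have := Nd.sep (d := 2) (a := (j' + 1, u')) (a' := (j' + 1, x)) (by omega) rfl (by simp; omega)
      _ _ _ l1 x2 rfl (by omega)
    omega
  · omega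

theorem Blk.not_reach {L : ℕ} {a : ℕ → ℤ}
    (ha : ∀ l < L, G.A l (a l - 1) < a (l + 1) ∧ a (l + 1) ≤ G.A l (a l)) {j h : ℕ}
    (hL : j + 1 + h = L) {ω : Finset (Pt × Pt)} (k : G.Blk m h j (a (j + 1)) ω) {F : Set Pt}
    (hF : ∀ v ∈ F, v.1 ≤ L) {o : Pt} (ho : o.1 ≤ j) : ¬Reach G.gr (kk m) F o ω (L, a L) := by
  obtain ⟨c, c1, c2, c3⟩ := k.2.1.cut
  obtain ⟨d, d1, d2, d3⟩ := k.2.2.cut
  have key : ∀ v, Reach G.gr (kk m) F o ω v → v.1 ≤ L ∧ (v.1 ≤ j ∨ v.2 ≤ c v.1 ∨ d v.1 < v.2) := by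
    intro v r
    induction r with
    | base => exact ⟨by omega, Or.inl ho⟩
    | @step u v _ h1 h2 h3 ih =>
      have h4 := hF v h2
      refine ⟨h4, ?_⟩
      by_contra e
      push Not at e
      by_cases e1 : u.1 ≤ j
      · obtain ⟨n, x⟩ := u
        obtain ⟨l, y⟩ := v
        have h5 := G.adj_iff.1 h1
        simp only at e e1 h5
        obtain ⟨rfl, rfl⟩ : n = j ∧ l = j + 1 := by omega
        have h6 := G.ch_two (n := n) (x := G.lp n y) (x' := x) (y := y)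
          ⟨(G.lp_spec n y).1.le, (G.lp_spec n y).2⟩ ⟨by omega, by omega⟩
        have h7 := (G.lp_spec n y).1
        refine k.1 _ (Finset.mem_image.2 ⟨((y - (a (n + 1) - 2)).toNat, (x - G.lp n y).toNat),
          ?_, ?_⟩) h3
        · simp only [Finset.mem_product, Finset.mem_range]
          omega
        · have e2 : a (n + 1) - 2 + ((y - (a (n + 1) - 2)).toNat : ℤ) = y := by omega
          simp only [e2]
          rcases h6 with e3 | e3 | e3
          · simp [e3]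
          · simp [e3.1]
          · rw [e3.1, add_sub_cancel_right] at h7
            omega
      · rcases ih.2 with e2 | e2 | e2
        · exact e1 e2
        · exact c3 u v (by omega) (by omega) (by omega) (by omega) h1 e2 e.2.1 h3
        · exact d3 v u (by omega) (by omega) (by omega) (by omega) (Adj.symm h1) e.2.2 e2 h3
  intro r
  have h1 := ((c2 L (by omega) (by omega)).far ha le_rfl).1 (by simp)
  have h2 := ((d2 L (by omega) (by omega)).far ha le_rfl).2 (by simp)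
  have := (key _ r).2
  simp only at *
  omega

theorem Blk_prob {p : ℝ≥0∞} (hp : p ≤ 1) (hβ : 3 ≤ 5 * ((1 - p) * if m then 1 else 1 - p))
    (Ω : Finset (Pt × Pt)) (h j : ℕ) (x : ℤ) :
    (1 - p) ^ 12 * (3⁻¹ * 3⁻¹) ≤ EX Ω p fun ω => ind (G.Blk m h j x ω) := by
  refine le_trans (mul_le_mul' ?_ ((mul_le_mul' (TE_prob hp hβ Ω _ _ _) (TE_prob hp hβ Ω _ _ _)).trans
    (EX_and_anti hp (fun _ _ => TE.anti) fun _ _ => TE.anti))) (EX_and_anti hp
      (fun _ _ e k κ hκ i => k κ hκ (e i)) fun _ _ e k => ⟨k.1.anti e, k.2.anti e⟩)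
  exact (pow_le_pow_of_le_one zero_le tsub_le_self (Finset.card_image_le.trans (by simp))).trans
    (EX_all_closed hp _)

theorem decay {p : ℝ≥0∞} (hp : p ≤ 1) (hβ : 3 ≤ 5 * ((1 - p) * if m then 1 else 1 - p)) :
    G.Decay m p := by
  intro ε hε
  have h0 : 1 - p ≠ 0 := fun e => by simp [e] at hβ
  have h1 : (1 : ℝ≥0∞) - (1 - p) ^ 12 * (3⁻¹ * 3⁻¹) < 1 := ENNReal.sub_lt_self ENNReal.one_ne_top
    one_ne_zero (mul_ne_zero (pow_ne_zero _ h0) (by simp))
  obtain ⟨n, hn⟩ := ((ENNReal.tendsto_pow_atTop_nhds_zero_of_lt_one h1).eventually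
    (gt_mem_nhds (pos_iff_ne_zero.2 hε))).exists
  refine ⟨n, fun y o x _ _ ho Ω => le_trans ?_ hn.le⟩
  obtain ⟨a, rfl, ha⟩ := exists_anc (G := G) (y.1 + (n + 3)) x
  have key : ∀ i ≤ n, (EX Ω p fun ω => ind (∀ h < i,
      ¬G.Blk m h (y.1 + (n + 2) - h) (a (y.1 + (n + 2) - h + 1)) ω)) ≤
      (1 - (1 - p) ^ 12 * (3⁻¹ * 3⁻¹)) ^ i := by
    intro i hi
    induction i with
    | zero => simpa using EX_ind_le_one hp _
    | succ i ih =>
      simp only [Nat.forall_lt_succ_right]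
      rw [EX_and_indep hp (P := fun κ => ∃ h < i, G.Zn (y.1 + (n + 2) - h)
        (a (y.1 + (n + 2) - h + 1)) κ) (fun κ e t => forall₂_congr fun h hh =>
          (dp_Blk _ _ _).not κ (fun e' => e ⟨h, hh, e'⟩) t) (dp_Blk _ _ _).not
        fun κ ⟨h, hh, e⟩ e' => Zn.disj ha (by omega) (by omega) e' e, pow_succ, EX_ind_not hp]
      exact mul_le_mul' (ih (by omega)) (tsub_le_tsub_left (Blk_prob hp hβ _ _ _ _) _)
  exact le_trans (EX_mono fun ω _ => ind_mono fun r h hh k =>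
    k.not_reach ha (by omega) (fun v hv => hv.2) (by omega) r) (key n le_rfl)

theorem decay_of_le {p : ℝ≥0∞} (h : p ≤ ENNReal.ofReal (if m then 2 / 5 else 9 / 40)) :
    G.Decay m p := by
  have h1 : p ≤ 1 := h.trans (by split_ifs <;> exact ENNReal.ofReal_le_one.2 (by norm_num))
  refine decay h1 ?_
  have h2 := tsub_le_tsub_left h 1
  rw [← ENNReal.ofReal_one, ← ENNReal.ofReal_sub _ (by split_ifs <;> norm_num),
    ENNReal.ofReal_one] at h2
  cases m
  · refine le_trans ?_ (mul_le_mul_right (mul_le_mul' h2 h2) 5)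
    rw [← ENNReal.ofReal_mul (by norm_num), ← ENNReal.ofReal_ofNat 5, ← ENNReal.ofReal_ofNat 3,
      ← ENNReal.ofReal_mul (by norm_num)]
    exact ENNReal.ofReal_le_ofReal (by norm_num)
  · refine le_trans ?_ (mul_le_mul_right (mul_le_mul_left h2 _) 5)
    rw [if_pos rfl, if_pos rfl, mul_one, ← ENNReal.ofReal_ofNat 5, ← ENNReal.ofReal_ofNat 3,
      ← ENNReal.ofReal_mul (by norm_num)]
    exact ENNReal.ofReal_le_ofReal (by norm_num)

end Gr.Grid
end Pool.Agent.P.MP_e4ac67_pr
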