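import Pool.Agent.P.MP_e4ac67_pr.E.Base
import Pool.Agent.P.MP_e4ac67_pr.DCT

/-! The set reached from a vertex has the same law for directed and for undirected coins. -/

open scoped ENNReal

namespace Pool.Agent.P.MP_e4ac67_pr

variable {V K : Type} {p : ℝ≥0∞}

/-- the set reached from `o` along the darts in `w` -/
def RS (o : V) (w : Set (V × V)) : Set V := {v | Relation.ReflTransGen (fun a b => (a, b) ∈ w) o v}

theorem RS_mono (o : V) {w w' : Set (V × V)} (h : w ⊆ w') : RS o w ⊆ RS o w' :=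
  fun _ k => by
    induction k with
    | refl => exact .refl
    | tail _ h2 ih => exact .tail ih (h h2)

theorem RS_insert {o a b : V} {w : Set (V × V)} (h : a ∉ RS o w ∨ b ∈ RS o w) :
    RS o (insert (a, b) w) = RS o w := by
  refine Set.Subset.antisymm (fun v hv => ?_) (RS_mono o (Set.subset_insert _ _))
  induction hv with
  | refl => exact .refl
  | tail _ h2 ih =>
    rcases h2 with e | e
    · obtain ⟨rfl, rfl⟩ := Prod.mk.inj e
      exact h.resolve_left (not_not.2 ih)
    · exact .tail ih e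

theorem RS_swap (Φ : Set V → ℝ≥0∞) (o a b : V) (w : Set (V × V)) :
    Φ (RS o (insert (a, b) w)) + Φ (RS o (insert (b, a) w)) =
      Φ (RS o (insert (a, b) (insert (b, a) w))) + Φ (RS o w) := by
  by_cases ha : a ∈ RS o w
  · rw [RS_insert (a := b) (Or.inr ha), Set.insert_comm,
      RS_insert (a := b) (Or.inr (RS_mono o (Set.subset_insert _ _) ha))]
  · rw [RS_insert (a := a) (Or.inl ha), add_comm]
    by_cases hb : b ∈ RS o w
    · rw [RS_insert (a := a) (Or.inr (RS_mono o (Set.subset_insert _ _) hb))]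
    · rw [RS_insert (a := a) (Or.inl (by rwa [RS_insert (Or.inl hb)]))]

theorem dir_bridge [DecidableEq K] {key : V → V → K} (hk : IsKey false key) (hp : p ≤ 1)
    (Φ : Set V → ℝ≥0∞) (o : V) (n : ℕ) : ∀ (D : Finset (V × V)) (g : Set (V × V)), D.card = n →
    (∀ a b, (a, b) ∈ D → (b, a) ∈ D ∧ a ≠ b) →
    (EX D p fun s => Φ (RS o (↑s ∪ g))) = EX (D.image fun d => key d.1 d.2) p
      fun t => Φ (RS o ({d | d ∈ D ∧ key d.1 d.2 ∈ t} ∪ g)) := by
  classical
  have hk' : ∀ a b c d, key a b = key c d ↔ (a = c ∧ b = d) ∨ (a = d ∧ b = c) := by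
    simpa [IsKey, KE] using hk
  induction n using Nat.strong_induction_on with
  | _ n ih =>
    intro D g hn hD
    rcases D.eq_empty_or_nonempty with rfl | ⟨⟨a, b⟩, hab⟩
    · simp [EX_empty]
    obtain ⟨hba, hne⟩ := hD a b hab
    have hne' : (b, a) ≠ (a, b) := fun e => hne (Prod.mk.inj e).2
    obtain ⟨D', hD', h1, h2⟩ : ∃ D' : Finset (V × V), D = insert (a, b) (insert (b, a) D') ∧
        (b, a) ∉ D' ∧ (a, b) ∉ D' :=
      ⟨(D.erase (a, b)).erase (b, a), by
        rw [Finset.insert_erase (Finset.mem_erase.2 ⟨hne', hba⟩), Finset.insert_erase hab],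
        by simp, by simp⟩
    have h3 : (a, b) ∉ insert (b, a) D' := by simp [h2, hne]
    have h4 : ∀ d ∈ D', key d.1 d.2 ≠ key a b := fun d hd e => by
      rcases (hk' _ _ _ _).1 e with ⟨rfl, rfl⟩ | ⟨rfl, rfl⟩
      exacts [h2 hd, h1 hd]
    have h5 : key b a = key a b := (hk' _ _ _ _).2 (Or.inr ⟨rfl, rfl⟩)
    have h6 : key a b ∉ D'.image fun d => key d.1 d.2 := fun h => by
      obtain ⟨d, hd, e⟩ := Finset.mem_image.1 h
      exact h4 d hd e
    have h7 : D'.card < n := by
      rw [← hn, hD', Finset.card_insert_of_notMem h3, Finset.card_insert_of_notMem h1]; omega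
    have h8 : ∀ c d, (c, d) ∈ D' → (d, c) ∈ D' ∧ c ≠ d := fun c d h => by
      obtain ⟨k1, k2⟩ := hD c d (by simp [hD', h])
      refine ⟨?_, k2⟩
      simp only [hD', Finset.mem_insert, Prod.mk.injEq] at k1
      rcases k1 with ⟨rfl, rfl⟩ | ⟨rfl, rfl⟩ | k1
      exacts [absurd h h1, absurd h h2, k1]
    have i1 := ih _ h7 D' g rfl h8
    have i2 := ih _ h7 D' (insert (a, b) (insert (b, a) g)) rfl h8
    have e : p + (1 - p) = 1 := add_tsub_cancel_of_le hp
    subst hD'
    rw [Finset.image_insert, Finset.image_insert, h5, Finset.insert_idem, EX_insert h3,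
      EX_insert h1, EX_insert h6, EX_add, EX_add _ fun s => (1 - p) * _, EX_mul_left, EX_mul_left,
      EX_mul_left, EX_mul_left]
    have r1 : (EX (D'.image fun d => key d.1 d.2) p fun t => Φ (RS o ({d | d ∈ insert (a, b)
        (insert (b, a) D') ∧ key d.1 d.2 ∈ insert (key a b) t} ∪ g))) =
        EX D' p fun s => Φ (RS o (↑s ∪ insert (a, b) (insert (b, a) g))) := by
      rw [i2]
      refine EX_congr fun t _ => congrArg (fun w => Φ (RS o w)) (Set.ext fun d => ?_)
      have := h4 d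
      simp only [Finset.mem_insert, Set.mem_union, Set.mem_ofPred_eq, Set.mem_insert_iff]
      constructor
      · rintro (⟨h | h | h, h'⟩ | h)
        · exact Or.inr (Or.inl h)
        · exact Or.inr (Or.inr (Or.inl h))
        · exact Or.inl ⟨h, h'.resolve_left (this h)⟩
        · exact Or.inr (Or.inr (Or.inr h))
      · rintro (h | rfl | rfl | h)
        · exact Or.inl ⟨Or.inr (Or.inr h.1), Or.inr h.2⟩
        · exact Or.inl ⟨Or.inl rfl, Or.inl rfl⟩
        · exact Or.inl ⟨Or.inr (Or.inl rfl), Or.inl h5⟩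
        · exact Or.inr h
    have r2 : (EX (D'.image fun d => key d.1 d.2) p fun t => Φ (RS o ({d | d ∈ insert (a, b)
        (insert (b, a) D') ∧ key d.1 d.2 ∈ t} ∪ g))) = EX D' p fun s => Φ (RS o (↑s ∪ g)) := by
      rw [i1]
      refine EX_congr fun t ht => congrArg (fun w => Φ (RS o w)) (Set.ext fun d => ?_)
      have : key a b ∉ t := fun h => h6 (ht h)
      simp only [Finset.mem_insert, Set.mem_union, Set.mem_ofPred_eq]
      constructor
      · rintro (⟨rfl | rfl | h, h'⟩ | h)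
        · exact absurd h' this
        · exact absurd (h5 ▸ h') this
        · exact Or.inl ⟨h, h'⟩
        · exact Or.inr h
      · exact Or.imp_left fun h => ⟨Or.inr (Or.inr h.1), h.2⟩
    rw [r1, r2, ← EX_mul_left, ← EX_mul_left, ← EX_mul_left, ← EX_mul_left, ← EX_add, ← EX_add]
    refine EX_congr fun s _ => ?_
    have k := RS_swap Φ o a b (↑s ∪ g)
    simp only [Finset.coe_insert, Set.insert_union, Set.union_insert]
    generalize 1 - p = q at e
    calc _ = p * p * Φ (RS o (insert (a, b) (insert (b, a) (↑s ∪ g)))) + q * q * Φ (RS o (↑s ∪ g)) +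
          p * q * (Φ (RS o (insert (a, b) (↑s ∪ g))) + Φ (RS o (insert (b, a) (↑s ∪ g)))) := by ring
      _ = (p + q) * (p * Φ (RS o (insert (a, b) (insert (b, a) (↑s ∪ g)))) +
          q * Φ (RS o (↑s ∪ g))) := by rw [k]; ring
      _ = _ := by rw [e, one_mul]

variable {G : SimpleGraph V} {key : V → V → K} {m : Bool}

theorem key_kk (hk : IsKey m key) (a b : V) : key (kk m a b).1 (kk m a b).2 = key a b :=
  (hk _ _ _ _).2 (by cases m <;> simp [KE, kk])

theorem reach_RS {F : Set V} {o : V} (ho : o ∈ F) {D : Finset (V × V)}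
    (hD : ∀ a b, (a, b) ∈ D ↔ a ∈ F ∧ b ∈ F ∧ G.Adj a b) (ω : Finset K) :
    {v | Reach G key F o ω v} = RS o {d | d ∈ D ∧ key d.1 d.2 ∈ ω} := by
  ext v
  constructor
  · intro h
    induction h with
    | base => exact .refl
    | step h0 h1 h2 h3 ih => exact .tail ih ⟨(hD _ _).2 ⟨h0.mem ho, h2, h1⟩, h3⟩
  · intro h
    induction h with
    | refl => exact Reach.base
    | tail _ h2 ih => exact Reach.step ih ((hD _ _).1 h2.1).2.2 ((hD _ _).1 h2.1).2.1 h2.2

/-- only the keys of darts inside the domain matter -/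
theorem EX_reach_set (hp : p ≤ 1) {F : Set V} {o : V} (ho : o ∈ F) (Φ : Set V → ℝ≥0∞)
    {Ω Ω' : Finset K} (h : ∀ a ∈ F, ∀ b ∈ F, G.Adj a b → key a b ∈ Ω)
    (h' : ∀ a ∈ F, ∀ b ∈ F, G.Adj a b → key a b ∈ Ω') :
    (EX Ω p fun ω => Φ {v | Reach G key F o ω v}) = EX Ω' p fun ω => Φ {v | Reach G key F o ω v} := by
  classical
  have aux : ∀ {A B : Finset K}, A ⊆ B → (∀ a ∈ F, ∀ b ∈ F, G.Adj a b → key a b ∈ A) →
      (EX B p fun ω => Φ {v | Reach G key F o ω v}) =
        EX A p fun ω => Φ {v | Reach G key F o ω v} := fun k hA =>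
    EX_drop hp k fun x _ hx s => congrArg Φ (Set.ext fun v =>
      ⟨fun r => Reach.of_insert r ho fun a ha b hb e e' => hx (e' ▸ hA a ha b hb e),
        fun r => Reach.mono2 r le_rfl (Finset.subset_insert _ _)⟩)
  rw [← aux Finset.subset_union_left h, aux Finset.subset_union_right h']

/-- the law of the reached set -/
theorem law_eq (hk : IsKey m key) (hp : p ≤ 1) {S : Finset V} {o : V} (ho : o ∈ S)
    (Φ : Set V → ℝ≥0∞) {Ω : Finset K} (h : ∀ a ∈ S, ∀ b ∈ S, G.Adj a b → key a b ∈ Ω) :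
    (EX (S ×ˢ S) p fun ω => Φ {v | Reach G (kk m) S o ω v}) =
      EX Ω p fun ω => Φ {v | Reach G key S o ω v} := by
  classical
  cases m
  · have hD : ∀ a b, (a, b) ∈ (S ×ˢ S).filter (fun d => G.Adj d.1 d.2) ↔
        a ∈ (S : Set V) ∧ b ∈ (S : Set V) ∧ G.Adj a b := fun a b => by simp [and_assoc]
    generalize (S ×ˢ S).filter (fun d => G.Adj d.1 d.2) = D at hD
    rw [EX_reach_set (key := kk false) (Ω' := D) hp ho Φ (fun a ha b hb _ => kk_mem _ ha hb)
        fun a ha b hb e => (hD a b).2 ⟨ha, hb, e⟩,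
      EX_reach_set (Ω' := D.image fun d => key d.1 d.2) hp ho Φ h
        fun a ha b hb e => Finset.mem_image.2 ⟨(a, b), (hD a b).2 ⟨ha, hb, e⟩, rfl⟩]
    have := dir_bridge hk hp Φ o _ D ∅ rfl fun a b e => by
      rw [hD] at e ⊢
      exact ⟨⟨e.2.1, e.1, e.2.2.symm⟩, e.2.2.ne⟩
    simp only [Set.union_empty] at this
    simp only [reach_RS (Finset.mem_coe.2 ho) hD]
    rw [← this]
    exact EX_congr fun s hs => congrArg (fun w => Φ (RS o w))
      (Set.ext fun d => ⟨fun e => e.2, fun e => ⟨hs e, e⟩⟩)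
  · have hk' : ∀ a b c d, key a b = key c d ↔ b = d := by simpa [IsKey, KE] using hk
    rw [EX_reach_set (Ω' := S.image fun b => (b, b)) hp ho Φ (fun a ha b hb _ => kk_mem _ ha hb)
        fun a _ b hb _ => Finset.mem_image.2 ⟨b, hb, rfl⟩,
      EX_reach_set (Ω' := S.image fun b => key b b) hp ho Φ h
        fun a _ b hb _ => Finset.mem_image.2 ⟨b, hb, (hk' _ _ _ _).2 rfl⟩,
      EX_image fun a _ b _ e => (Prod.mk.inj e).1, EX_image fun a _ b _ e => (hk' _ _ _ _).1 e]
    refine EX_congr fun s _ => congrArg Φ (Set.ext fun v => ⟨fun r => ?_, fun r => ?_⟩)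
    · induction r with
      | base => exact Reach.base
      | step _ h1 h2 h3 ih => exact Reach.step ih h1 h2 (by simpa [kk, hk'] using h3)
    · induction r with
      | base => exact Reach.base
      | step _ h1 h2 h3 ih => exact Reach.step ih h1 h2 (by simpa [kk, hk'] using h3)

/-- the expected number of exit keys -/
theorem NE_dir (hk : IsKey m key) (hp : p ≤ 1) {S : Finset V} {o : V} (ho : o ∈ S) {Ω : Finset K}
    (h : KeysOK G key S Ω) : EX (S ×ˢ S) p (NE G (kk m) S Set.univ o) ≤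
      EX Ω p (NE G key S Set.univ o) := by
  have := law_eq (G := G) hk hp ho (fun R => ∑' κ, ind (∃ u v, (u ∈ R ∧ u ∈ S) ∧ G.Adj u v ∧
    v ∉ S ∧ kk m u v = κ)) fun a ha b _ e => h a a b ha (Or.inl rfl) e
  refine le_trans (EX_mono fun s _ => ENNReal.tsum_le_tsum fun κ => ind_mono ?_)
    (this.le.trans (EX_mono fun s _ => tsum_le_of_enc _ _ (fun κ => key κ.1 κ.2) ?_ ?_))
  · rintro ⟨u, v, h1, h2, h3, -, h4⟩
    rw [Set.inter_univ] at h1
    exact ⟨u, v, ⟨h1, h1.mem ho⟩, h2, h3, h4⟩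
  · intro a b ha hb e
    obtain ⟨u, v, h1, -, h3, rfl⟩ := of_ind_mul_ne (x := 1) (by rw [mul_one]; exact ha)
    obtain ⟨u', v', k1, -, k3, rfl⟩ := of_ind_mul_ne (x := 1) (by rw [mul_one]; exact hb)
    rw [key_kk hk, key_kk hk, hk] at e
    cases m
    · rcases (by simpa [KE] using e : (u = u' ∧ v = v') ∨ (u = v' ∧ v = u')) with
        ⟨rfl, rfl⟩ | ⟨rfl, rfl⟩
      exacts [rfl, absurd h1.2 k3]
    · obtain rfl : v = v' := by simpa [KE] using e
      rfl
  · refine fun a _ => ind_mono ?_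
    rintro ⟨u, v, h1, h2, h3, rfl⟩
    exact ⟨u, v, by rw [Set.inter_univ]; exact h1.1, h2, h3, trivial, (key_kk hk u v).symm⟩

/-- long open paths for directed coins -/
theorem perc_dir (hfin : ∀ v, (G.neighborSet v).Finite) (hk : IsKey m key) (hp : p ≤ 1)
    (h : Perc G key p) : Perc G (kk m) p := by
  classical
  obtain ⟨θ, h0, v, h⟩ := h
  refine ⟨θ, h0, v, fun M => ?_⟩
  obtain ⟨Ω, hΩ⟩ := h (DCT.ball hfin v M).card
  have hv := DCT.mem_ball hfin v (M + 1)
  have := law_eq (G := G) hk hp hv (fun R => ind (∃ w ∈ R, w ∉ DCT.ball hfin v M))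
    (Ω := Ω ∪ DCT.keys key hfin (DCT.ball hfin v (M + 1))) fun a ha b _ e =>
      Finset.mem_union_right _ ((DCT.mem_keys hfin).2 ⟨a, ha, b, e, rfl⟩)
  refine ⟨_, hΩ.trans ((EX_mono fun s _ => ind_mono ?_).trans
    ((EX_mono_set hp Finset.subset_union_left fun s t k => ind_mono fun ⟨w, r, hw⟩ =>
      ⟨w, Reach.mono2 r le_rfl k, hw⟩).trans (this.ge.trans (EX_mono fun s _ => ind_mono ?_))))⟩
  · rintro ⟨f, f0, f1, f2⟩
    by_contra hc
    push Not at hc
    have aux : ∀ i ≤ (DCT.ball hfin v M).card,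
        Reach G key (DCT.ball hfin v (M + 1)) v s (f i) := fun i hi => by
      induction i with
      | zero => rw [f0]; exact .base
      | succ i ih =>
        have r := ih (by omega)
        exact r.step (f1 i hi).1 (DCT.ball_adj hfin (hc _ r) (f1 i hi).1) (f1 i hi).2
    have := Finset.card_le_card_of_injOn (s := Finset.range ((DCT.ball hfin v M).card + 1))
      (t := DCT.ball hfin v M) f (fun i hi => hc _ (aux i (by simpa [Nat.lt_succ_iff] using hi)))
      fun i hi j hj e => f2 i (by simpa [Nat.lt_succ_iff] using hi) j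
        (by simpa [Nat.lt_succ_iff] using hj) e
    simp at this
  · rintro ⟨w, r, hw⟩
    obtain ⟨n, f, f0, fn, f1, f2⟩ := Reach.simple r
    have aux : ∀ i ≤ n, f i ∈ DCT.ball hfin v i := fun i hi => by
      induction i with
      | zero => rw [f0]; exact DCT.mem_ball hfin v 0
      | succ i ih => exact DCT.ball_adj hfin (ih (by omega)) (f1 i hi).1
    have hn : M < n := by
      by_contra k
      exact hw (DCT.ball_mono hfin v (not_lt.1 k) (fn ▸ aux n le_rfl))
    exact ⟨f, f0, fun i hi => ⟨(f1 i (by omega)).1, (f1 i (by omega)).2.2⟩,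
      fun i hi j hj => f2 i (by omega) j (by omega)⟩

end Pool.Agent.P.MP_e4ac67_pr
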