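import Pool.Agent.P.MP_e4ac67_pr.E.Decay
import Pool.Agent.P.MP_e4ac67_pr.A.Lat
import Pool.Agent.P.MP_e4ac67_pr.CertPerc
import Pool.Agent.P.MP_e4ac67_pr.Final

/-! From growth and decay on the grid to the comparison of the thresholds. -/

open scoped ENNReal
open ProbabilityTheory

namespace Pool.Agent.P.MP_e4ac67_pr

theorem sInf_le_of_bar {A B : Set unitInterval} {b : ℝ} (hb : ((sInf B : unitInterval) : ℝ) < b)
    (h : ∀ p ∈ B, (p : ℝ) < b → ∀ q, p < q → q ∈ A) : sInf A ≤ sInf B := by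
  refine le_of_forall_gt_imp_ge_of_dense fun q hq => ?_
  rcases le_total (q : ℝ) b with e | e
  · obtain ⟨p, h1, h2⟩ := sInf_lt_iff.1 hq
    exact sInf_le (h p h1 (lt_of_lt_of_le h2 e) q h2)
  · obtain ⟨p, h1, h2⟩ := sInf_lt_iff.1 (show sInf B < ⟨b, (sInf B).2.1.trans hb.le,
      e.trans q.2.2⟩ from hb)
    exact sInf_le (h p h1 h2 q (lt_of_lt_of_le h2 e))

theorem exists_exp {p q : ℝ} (h0 : 0 ≤ p) (h : p < q) : ∃ γ : ℝ, 1 < γ ∧ p ≤ q ^ γ := by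
  have h1 : ∀ᶠ γ in nhds (1 : ℝ), p < q ^ γ :=
    (Real.continuousAt_const_rpow (h0.trans_lt h).ne').eventually (lt_mem_nhds (by simpa using h))
  obtain ⟨γ, a, b⟩ := ((h1.filter_mono nhdsWithin_le_nhds).and
    (self_mem_nhdsWithin (s := Set.Ioi (1 : ℝ)))).exists
  exact ⟨γ, b, a.le⟩

namespace Gr
variable {V K : Type} {G : Grid} {T : PlaneTri V} {m : Bool} {key : V → V → K}

theorem Emb.adjE (E : Emb G T) {u v : Pt} (hu : 1 ≤ u.1) (h : G.Adj u v) :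
    T.G.Adj (E.π u) (E.π v) := by
  obtain ⟨j, hj, rfl⟩ := Grid.exists_nb h
  rw [← E.rot u hu j hj]
  exact PlaneTri.adj_rot (E.adj0 u hu) j

theorem Emb.phiC (E : Emb G T) (hk : IsKey m key) {p : ℝ≥0∞} (h0 : p ≠ 0) (hp : p ≤ 1) {N : ℕ}
    (hN : 0 < N) (h : ∀ (S : Finset Pt) (y : Pt), 1 ≤ y.1 → G.Cn 0 (0, 0) y → G.Hs y N ⊆ S →
      2 ≤ ∑ x ∈ Finset.Icc (G.lr y N) (G.rr y N),
        EX (S ×ˢ S) p fun ω => ind (Reach G.gr (kk m) (G.Hs y N) y ω (y.1 + N, x))) :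
    ∃ C o, PhiC T.G key C p o := by
  classical
  obtain ⟨C, hC⟩ := ENNReal.exists_nat_mul_gt (mul_ne_zero h0 (pow_ne_zero N h0)) ENNReal.one_ne_top
  obtain ⟨y, y1, y0⟩ : ∃ y : Pt, 1 ≤ y.1 ∧ G.Cn 0 (0, 0) y :=
    ⟨(0 + 1, G.rr (0, 0) 1), le_rfl, (Grid.cn_iff (y := (0, 0))).2 ⟨Grid.lr_le_rr _ _, le_rfl⟩⟩
  have hi : ∀ u v, G.Cn 0 y u → G.Cn 0 y v → E.π u = E.π v → u = v := fun u v hu hv => by
    have a := Grid.cn_trans y0 hu
    have b := Grid.cn_trans y0 hv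
    refine E.inj u v ?_ ?_ <;> simp only [Grid.Cn] at * <;> omega
  refine ⟨C, E.π y, fun S hS Ω hΩ => hC.le.trans (mul_le_mul_right (mul_le_mul_right
    (le_trans ?_ (NE_dir hk hp hS hΩ)) _) _)⟩
  obtain ⟨S', hS'⟩ : ∃ S' : Finset Pt, ∀ v, v ∈ S' ↔ G.Cn 0 y v ∧ E.π v ∈ S :=
    ⟨(Set.Finite.of_finite_image (f := E.π) (s := {v | G.Cn 0 y v ∧ E.π v ∈ S})
      (S.finite_toSet.subset (by rintro _ ⟨v, hv, rfl⟩; exact hv.2))
      fun u hu v hv => hi u v hu.1 hv.1).toFinset, fun v => by simp⟩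
  have hy : y ∈ S' := (hS' y).2 ⟨Grid.cn_self y, hS⟩
  have hφ : ∀ a b : Pt × Pt, G.Cn 0 y a.1 → G.Cn 0 y a.2 → G.Cn 0 y b.1 → G.Cn 0 y b.2 →
      Prod.map E.π E.π a = Prod.map E.π E.π b → a = b := fun a b a1 a2 b1 b2 e =>
    Prod.ext (hi _ _ a1 b1 (congrArg Prod.fst e)) (hi _ _ a2 b2 (congrArg Prod.snd e))
  refine (Grid.cone_NE hp hN (h S') (S'.sup Prod.fst) y hy y1 y0 (by omega)).trans
    (EX_le_of_inj (φ := Prod.map E.π E.π) (fun a ha b hb => ?_) hp (fun a ha => ?_)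
      (NE_monotone _ _ _) fun s _ => tsum_le_of_enc _ _ (Prod.map E.π E.π) (fun a b ha hb => ?_)
        fun a _ => ind_mono ?_)
  · rw [Finset.mem_coe, Finset.mem_product, hS', hS'] at ha hb
    exact hφ a b ha.1.1 ha.2.1 hb.1.1 hb.2.1
  · rw [Finset.mem_product, hS', hS'] at ha
    exact Finset.mem_product.2 ⟨ha.1.2, ha.2.2⟩
  · obtain ⟨u, v, r, -, -, h1, rfl⟩ := of_ind_mul_ne (x := 1) (by rw [mul_one]; exact ha)
    obtain ⟨u', v', r', -, -, h2, rfl⟩ := of_ind_mul_ne (x := 1) (by rw [mul_one]; exact hb)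
    have h3 := (r.mem ⟨hy, Grid.cn_self y⟩).2
    have h4 := (r'.mem ⟨hy, Grid.cn_self y⟩).2
    refine hφ _ _ ?_ ?_ ?_ ?_ <;> cases m <;> assumption
  · rintro ⟨u, v, r, h1, h2, h3, rfl⟩
    have aux : ∀ w, Reach G.gr (kk m) ((S' : Set Pt) ∩ {v | G.Cn 0 y v}) y s w →
        Reach T.G (kk m) ((S : Set V) ∩ Set.univ) (E.π y) (s.image (Prod.map E.π E.π)) (E.π w) := by
      intro w r
      induction r with
      | base => exact .base
      | step k0 k1 k2 k3 ih =>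
        exact ih.step (E.adjE (y1.trans (k0.mem ⟨hy, Grid.cn_self y⟩).2.1) k1)
          ⟨((hS' _).1 k2.1).2, trivial⟩ (Finset.mem_image.2 ⟨_, k3, kk_map _ _ _ _⟩)
    exact ⟨_, _, aux u r, E.adjE (y1.trans (r.mem ⟨hy, Grid.cn_self y⟩).2.1) h1,
      fun e => h2 ((hS' v).2 ⟨h3, e⟩), trivial, (kk_map _ _ _ _).symm⟩

/-- growth and decay on the grid give percolation on the triangulation -/
theorem Emb.perc (E : Emb G T) (hk : IsKey m key) {U : Set K}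
    (hU : ∀ a b, T.G.Adj a b → key a b ∈ U) {p q : unitInterval} (hpq : p < q) {c : ℝ≥0∞}
    (hc : c ≠ 0) (hg : G.Grow m (toE p) c) (hd : G.Decay m (toE p)) : ∃ y, 0 < setBernoulli U q
      {ω : Set K | {w | Relation.ReflTransGen
        (fun a b => T.G.Adj a b ∧ key a b ∈ ω) y w}.Infinite} := by
  obtain ⟨r, h1, h2⟩ := exists_between hpq
  obtain ⟨γ, g1, g2⟩ := exists_exp p.2.1 (show (p : ℝ) < r from h1)
  have h0 : toE r ≠ 0 := by
    rw [DCT.toE_eq]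
    exact (ENNReal.ofReal_pos.2 (p.2.1.trans_lt h1)).ne'
  obtain ⟨N, hN, h⟩ := Grid.branch g1 (by
    rw [DCT.toE_eq, DCT.toE_eq, ENNReal.ofReal_rpow_of_nonneg r.2.1 (by linarith)]
    exact ENNReal.ofReal_le_ofReal g2) h0 (toE_le_one r) hc hg hd
  obtain ⟨C, o, h⟩ := E.phiC hk h0 (toE_le_one r) hN h
  exact ⟨o, dctC T.locFin hk hU o h2 h⟩

end Gr

namespace PlaneTri
open Gr
variable {V V' K K' : Type} {T : PlaneTri V} {T' : PlaneTri V'}

/-- what the exploration has to provide for densities below `b` -/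
def Cmp (T : PlaneTri V) (T' : PlaneTri V') (m : Bool) (b : ℝ) : Prop :=
  ∀ G : Grid, Emb G T → ∀ p : ℝ≥0∞, p ≤ ENNReal.ofReal b → p ≤ 1 → Perc T'.G (kk m) p →
    ∃ c, c ≠ 0 ∧ G.Grow m p c

theorem perc_cmp (h7 : ∀ v, 7 ≤ T.deg v) {m : Bool} {b : ℝ} (H : T.Cmp T' m b)
    (hb' : b ≤ if m then 2 / 5 else 9 / 40) {key : V → V → K}
    {key' : V' → V' → K'} (hkey : IsKey m key) (hkey' : IsKey m key') {U : Set K} {U' : Set K'}
    (hU : ∀ a b, T.G.Adj a b → key a b ∈ U) (hU' : ∀ a b, T'.G.Adj a b → key' a b ∈ U')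
    {p q : unitInterval} (hb : (p : ℝ) < b) (hpq : p < q) (h : 0 < setBernoulli U' p {ω : Set K' |
      ∃ v, {w | Relation.ReflTransGen (fun a b => T'.G.Adj a b ∧ key' a b ∈ ω) v w}.Infinite}) :
    ∃ y, 0 < setBernoulli U q {ω : Set K |
      {w | Relation.ReflTransGen (fun a b => T.G.Adj a b ∧ key a b ∈ ω) y w}.Infinite} := by
  obtain ⟨G, ⟨E⟩⟩ := exists_emb T h7
  have := T'.countable
  obtain ⟨c, hc, hg⟩ := H G E (toE p) (DCT.toE_eq p ▸ ENNReal.ofReal_le_ofReal hb.le)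
    (toE_le_one p) (perc_dir T'.locFin hkey' (toE_le_one p) (perc_of_pos T'.locFin hU' h))
  exact E.perc hkey hU hpq hc hg
    (Grid.decay_of_le (DCT.toE_eq p ▸ ENNReal.ofReal_le_ofReal (hb.le.trans hb')))

theorem site_cmp (h7 : ∀ v, 7 ≤ T.deg v) {b : ℝ} (H : T.Cmp T' true b) (hb' : b ≤ 2 / 5)
    (hb : (pcSite T'.G : ℝ) < b) : pcSite T.G ≤ pcSite T'.G := by
  refine sInf_le_of_bar hb fun p hp h1 q hq => ?_
  obtain ⟨y, h⟩ := perc_cmp h7 H hb' (key := fun _ b => b) (key' := fun _ b => b)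
    (fun _ _ _ _ => by simp [KE]) (fun _ _ _ _ => by simp [KE]) (U := Set.univ) (U' := Set.univ)
    (fun _ _ _ => trivial) (fun _ _ _ => trivial) h1 hq
    (lt_of_lt_of_le hp (MeasureTheory.measure_mono (by
      rintro ω ⟨v, hv⟩
      refine ⟨v, hv.mono fun w hw => ?_⟩
      induction hw with
      | refl => exact .refl
      | tail _ h2 ih => exact .tail ih ⟨h2.1, h2.2.2⟩)))
  exact lt_of_lt_of_le h (MeasureTheory.measure_mono (T.site_sub y))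

theorem bond_cmp (h7 : ∀ v, 7 ≤ T.deg v) {b : ℝ} (H : T.Cmp T' false b) (hb' : b ≤ 9 / 40)
    (hb : (pcBond T'.G : ℝ) < b) : pcBond T.G ≤ pcBond T'.G := by
  refine sInf_le_of_bar hb fun p hp h1 q hq => ?_
  obtain ⟨y, h⟩ := perc_cmp h7 H hb' (key := fun a b => s(a, b)) (key' := fun a b => s(a, b))
    (fun _ _ _ _ => by simp [KE]) (fun _ _ _ _ => by simp [KE]) (U := T.G.edgeSet)
    (U' := T'.G.edgeSet) (fun _ _ h => h) (fun _ _ h => h) h1 hq hp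
  exact lt_of_lt_of_le h (MeasureTheory.measure_mono fun ω hω => ⟨y, hω⟩)

end PlaneTri
end Pool.Agent.P.MP_e4ac67_pr
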