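import Pool.Agent.P.MP_e4ac67_pr.E.Cone

/-! Lower bounds for the connection probability of two adjacent points, using detours. -/

open scoped ENNReal

namespace Pool.Agent.P.MP_e4ac67_pr

/-- probability of the union of two independent events -/
noncomputable def par (x y : ℝ≥0∞) : ℝ≥0∞ := x + (1 - x) * y

theorem par_le_one {x y : ℝ≥0∞} (hx : x ≤ 1) (hy : y ≤ 1) : par x y ≤ 1 :=
  (add_le_add_right (mul_le_of_le_one_right' hy) _).trans_eq (add_tsub_cancel_of_le hx)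

theorem par_mono {x X y Y : ℝ≥0∞} (h : x ≤ X) (hX : X ≤ 1) (h' : y ≤ Y) (hY : Y ≤ 1) :
    par x y ≤ par X Y := by
  obtain ⟨d, rfl⟩ := exists_add_of_le h
  have e : 1 - x = 1 - (x + d) + d := by
    rw [tsub_add_eq_tsub_tsub, tsub_add_cancel_of_le (ENNReal.le_sub_of_add_le_left
      (ne_top_of_le_ne_top ENNReal.one_ne_top (le_self_add.trans hX)) hX)]
  unfold par
  rw [e]
  calc _ = x + d * y + (1 - (x + d)) * y := by ring
    _ ≤ _ := by
      gcongr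
      exact mul_le_of_le_one_right' (h'.trans hY)

theorem par_ofReal {x y : ℝ} (h0 : 0 ≤ x) (h1 : x ≤ 1) (hy : 0 ≤ y) :
    par (ENNReal.ofReal x) (ENNReal.ofReal y) = ENNReal.ofReal (x + (1 - x) * y) := by
  rw [par, ENNReal.ofReal_add h0 (mul_nonneg (by linarith) hy), ENNReal.ofReal_mul (by linarith),
    ENNReal.ofReal_sub _ h0, ENNReal.ofReal_one]

section
variable {ι : Type} {p : ℝ≥0∞}

theorem EX_fubini [DecidableEq ι] {A B : Finset ι} (h : Disjoint A B) (f : Finset ι → ℝ≥0∞) :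
    EX (A ∪ B) p f = EX A p fun s => EX B p fun t => f (s ∪ t) := by
  induction A using Finset.induction_on generalizing f with
  | empty => simp [EX_empty]
  | insert a s ha ih =>
    rw [Finset.disjoint_insert_left] at h
    rw [Finset.insert_union, EX_insert (by simp [ha, h.1]), EX_insert ha, ih h.2]
    simp only [EX_add, EX_mul_left, Finset.insert_union]

theorem EX_ind_not {Ω : Finset ι} (hp : p ≤ 1) (A : Finset ι → Prop) :
    (EX Ω p fun s => ind (¬A s)) = 1 - EX Ω p fun s => ind (A s) := by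
  refine ENNReal.eq_sub_of_add_eq (ne_top_of_le_ne_top ENNReal.one_ne_top (EX_ind_le_one hp A)) ?_
  rw [← EX_add, ← EX_const (Ω := Ω) hp 1]
  exact EX_congr fun s _ => by by_cases h : A s <;> simp [ind, h]

theorem EX_par [DecidableEq ι] (hp : p ≤ 1) {A B : Finset ι} (h : Disjoint A B)
    {E : Finset ι → Prop} (hE : ∀ s t, s ⊆ t → E s → E t) :
    par (EX A p fun s => ind (E s)) (EX B p fun s => ind (E s)) ≤
      EX (A ∪ B) p fun s => ind (E s) := by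
  rw [EX_fubini h, par, ← EX_ind_not hp, ← EX_mul_right, ← EX_add]
  refine EX_mono fun s _ => ?_
  by_cases k : E s
  · rw [ind_of k, ind_of_not (not_not.2 k), zero_mul, add_zero, ← EX_const (Ω := B) hp 1]
    exact EX_mono fun t _ => (ind_of (hE _ _ Finset.subset_union_left k)).ge
  · rw [ind_of_not k, ind_of k, one_mul, zero_add]
    exact EX_mono fun t _ => ind_mono (hE _ _ Finset.subset_union_right)

end

section
variable {V : Type} [DecidableEq V] (G : SimpleGraph V) (F : Set V) (p : ℝ≥0∞)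

/-- connection probability using only the darts in `S` -/
noncomputable def PS (S : Finset (V × V)) (a b : V) : ℝ≥0∞ :=
  EX S p fun ω => ind (Reach G (kk false) F a ω b)

variable {G F p} {S S' : Finset (V × V)} {a b w x x' : V} {s t : ℝ≥0∞}

omit [DecidableEq V] in
theorem PS_one (hp : p ≤ 1) (h : G.Adj a b) (hb : b ∈ F) : p ≤ PS G F p {(a, b)} a b :=
  reach_one hp h hb (Finset.mem_singleton_self _)

omit [DecidableEq V] in
theorem PS_mono (hp : p ≤ 1) (h : S ⊆ S') : PS G F p S a b ≤ PS G F p S' a b :=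
  EX_mono_set hp h fun _ _ k => reach_monotone _ _ _ k

theorem PS_ser (hp : p ≤ 1) (h : s ≤ PS G F p S a w) (h' : t ≤ PS G F p S' w b) :
    s * t ≤ PS G F p (S ∪ S') a b :=
  (mul_le_mul' (h.trans (PS_mono hp Finset.subset_union_left))
    (h'.trans (PS_mono hp Finset.subset_union_right))).trans (reach_chain hp _ _ _ _)

theorem PS_par (hp : p ≤ 1) (hd : Disjoint S S') (h : s ≤ PS G F p S a b)
    (h' : t ≤ PS G F p S' a b) : par s t ≤ PS G F p (S ∪ S') a b :=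
  (par_mono h (EX_ind_le_one hp _) h' (EX_ind_le_one hp _)).trans
    (EX_par hp hd fun _ _ k r => r.mono2 le_rfl k)

/-- one detour -/
noncomputable def r1 (p : ℝ≥0∞) : ℝ≥0∞ := par p (p * p)

/-- two detours of depth two -/
noncomputable def r2 (p : ℝ≥0∞) : ℝ≥0∞ := par p (par (r1 p * r1 p) (r1 p * r1 p))

/-- the same with one inner detour missing -/
noncomputable def r2' (p : ℝ≥0∞) : ℝ≥0∞ := par p (par (r1 p * r1 p) (r1 p * p))

theorem PS_r1 (hp : p ≤ 1) (h : G.Adj a b) (h1 : G.Adj a x) (h2 : G.Adj x b) (hb : b ∈ F)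
    (hx : x ∈ F) : r1 p ≤ PS G F p ({(a, b)} ∪ ({(a, x)} ∪ {(x, b)})) a b :=
  PS_par hp (by simp [h1.ne, h2.ne']) (PS_one hp h hb)
    (PS_ser hp (PS_one hp h1 hx) (PS_one hp h2 hb))

variable (G) in
/-- the faces on one side of the edge `a b` -/
structure Half (a b w x x' : V) : Prop where
  aw : G.Adj a w
  wb : G.Adj w b
  ax : G.Adj a x
  xw : G.Adj x w
  wx : G.Adj w x'
  xb : G.Adj x' b
  n1 : x ≠ b
  n2 : x' ≠ a

variable (G) in
structure Gad (a b w x x' v y y' : V) : Prop where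
  ab : G.Adj a b
  l : Half G a b w x x'
  r : Half G a b v y y'
  n1 : w ≠ v
  n2 : w ≠ y
  n3 : x ≠ v
  n4 : x ≠ y
  n5 : w ≠ y'
  n6 : x' ≠ v
  n7 : x' ≠ y'

omit [DecidableEq V] in
theorem Gad.symm {v y y' : V} (h : Gad G a b w x x' v y y') : Gad G a b v y y' w x x' :=
  ⟨h.ab, h.r, h.l, h.n1.symm, h.n3.symm, h.n2.symm, h.n4.symm, h.n6.symm, h.n5.symm, h.n7.symm⟩

theorem Gad.full (hp : p ≤ 1) {v y y' : V} (h : Gad G a b w x x' v y y')
    (hF : b ∈ F ∧ w ∈ F ∧ x ∈ F ∧ x' ∈ F ∧ v ∈ F ∧ y ∈ F) {Ω : Finset (V × V)} (ha : a ∈ F)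
    (hΩ : ∀ u ∈ F, ∀ u' ∈ F, G.Adj u u' → (u, u') ∈ Ω) :
    r2' p ≤ PS G F p Ω a b ∧ (y' ∈ F → r2 p ≤ PS G F p Ω a b) := by
  obtain ⟨f1, f2, f3, f4, f5, f6⟩ := hF
  obtain ⟨h0, ⟨l1, l2, l3, l4, l5, l6, l7, l8⟩, ⟨k1, k2, k3, k4, k5, k6, k7, k8⟩, n1, n2, n3, n4,
    n5, n6, n7⟩ := h
  have e1 := PS_ser hp (PS_r1 hp l1 l3 l4 f2 f3) (PS_r1 hp l2 l5 l6 f1 f4)
  have e2 := PS_r1 hp k1 k3 k4 f5 f6
  have := And.intro (And.intro (And.intro l1.ne l1.ne') (And.intro l2.ne l2.ne'))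
    (And.intro (And.intro k1.ne k1.ne') (And.intro k2.ne k2.ne'))
  have := And.intro (And.intro (And.intro l3.ne l3.ne') (And.intro l6.ne l6.ne'))
    (And.intro (And.intro k3.ne k3.ne') (And.intro k6.ne k6.ne'))
  have := And.intro (And.intro (And.intro n1.symm n2.symm) (And.intro n3.symm n4.symm))
    (And.intro (And.intro n5.symm n6.symm) (And.intro n7.symm (And.intro
      (And.intro l7.symm l8.symm) (And.intro k7.symm k8.symm))))
  refine ⟨(PS_par hp ?_ (PS_one hp h0 f1) (PS_par hp ?_ e1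
    (PS_ser hp e2 (PS_one hp k2 f1)))).trans (PS_mono hp ?_), fun f7 => (PS_par hp ?_
      (PS_one hp h0 f1) (PS_par hp ?_ e1 (PS_ser hp e2 (PS_r1 hp k2 k5 k6 f1 f7)))).trans
        (PS_mono hp ?_)⟩
  all_goals simp [Finset.subset_iff, *]

end

namespace Gr.Grid
variable {G : Grid}

theorem gad_lat {n : ℕ} (x : ℤ) : ∃ w x₁ x₂ v y y', Gad G.gr (n + 1, x) (n + 1, x + 1) w x₁ x₂ v y y' ∧
    Gad G.gr (n + 1, x + 1) (n + 1, x) w x₂ x₁ v y' y := by
  obtain ⟨h1, h2⟩ := G.lp_spec n (x + 1)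
  generalize G.lp n (x + 1) = m at h1 h2
  have a1 := G.gap2 (n + 1) x
  have a2 := G.gap2 (n + 1) (x + 1)
  have a3 := G.gap2 n (m - 1)
  have a4 := G.gap2 n (m + 1)
  simp only [add_sub_cancel_right] at a2 a4
  refine ⟨(n + 2, G.A (n + 1) x), (n + 2, G.A (n + 1) x - 1), (n + 2, G.A (n + 1) x + 1), (n, m),
    if G.A n (m - 1) < x then (n + 1, x - 1) else (n, m - 1),
    if x + 1 < G.A n m then (n + 1, x + 2) else (n, m + 1), ?_⟩
  split_ifs <;> refine ⟨⟨?_, ⟨?_, ?_, ?_, ?_, ?_, ?_, ?_, ?_⟩, ⟨?_, ?_, ?_, ?_, ?_, ?_, ?_, ?_⟩,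
    ?_, ?_, ?_, ?_, ?_, ?_, ?_⟩, ⟨?_, ⟨?_, ?_, ?_, ?_, ?_, ?_, ?_, ?_⟩,
      ⟨?_, ?_, ?_, ?_, ?_, ?_, ?_, ?_⟩, ?_, ?_, ?_, ?_, ?_, ?_, ?_⟩⟩ <;>
    simp only [gr, adj_iff, ne_eq, Prod.mk.injEq, add_sub_cancel_right, true_and, true_or, or_true, and_true] <;> omega

theorem gad_ch {n : ℕ} {x y : ℤ} (h : G.Ch (n + 1) x y) :
    ∃ w x₁ x₂ v z z', Gad G.gr (n + 1, x) (n + 2, y) w x₁ x₂ v z z' := by
  obtain ⟨h1, h2⟩ := h
  obtain ⟨h3, h4⟩ := G.lp_spec n x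
  obtain ⟨h5, h6⟩ := G.lp_spec n (x + 1)
  generalize G.lp n x = m at h3 h4
  generalize G.lp n (x + 1) = m' at h5 h6
  have a1 := G.gap2 (n + 1) x
  have a2 := G.gap2 (n + 1) (x + 1)
  have a3 := G.gap2 (n + 1) (x - 1)
  have a4 := G.gap2 (n + 2) y
  have a5 := G.gap2 (n + 2) (y + 1)
  have a6 := G.gap2 (n + 2) (y - 1)
  simp only [add_sub_cancel_right] at a2 a5
  refine ⟨if G.A (n + 1) (x - 1) < y then (n + 2, y - 1) else (n + 1, x - 1),
    if G.A (n + 1) (x - 1) < y then (if G.A (n + 1) (x - 1) < y - 1 then (n + 2, y - 2)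
      else (n + 1, x - 1)) else (n, m),
    if G.A (n + 1) (x - 1) < y then (n + 3, G.A (n + 2) (y - 1)) else (n + 2, y - 1),
    if y < G.A (n + 1) x then (n + 2, y + 1) else (n + 1, x + 1),
    if y < G.A (n + 1) x then (if y + 1 < G.A (n + 1) x then (n + 2, y + 2)
      else (n + 1, x + 1)) else (n, m'),
    if y < G.A (n + 1) x then (n + 3, G.A (n + 2) y) else (n + 2, y + 1), ?_⟩
  split_ifs <;> refine ⟨?_, ⟨?_, ?_, ?_, ?_, ?_, ?_, ?_, ?_⟩, ⟨?_, ?_, ?_, ?_, ?_, ?_, ?_, ?_⟩,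
    ?_, ?_, ?_, ?_, ?_, ?_, ?_⟩ <;>
    simp only [gr, adj_iff, ne_eq, Prod.mk.injEq, add_sub_cancel_right, true_and, true_or, or_true, and_true] <;> omega

theorem exists_gad {a b : Pt} (h : G.Adj a b) (ha : 1 ≤ a.1) (hab : a.1 ≤ b.1) :
    ∃ w x x' v y y', Gad G.gr a b w x x' v y y' := by
  obtain ⟨n, x⟩ := a
  obtain ⟨l, y⟩ := b
  obtain ⟨n, rfl⟩ : ∃ m, n = m + 1 := ⟨n - 1, by simp at ha; omega⟩
  rcases G.adj_iff.1 h with ⟨e1, e2 | e2⟩ | ⟨e1, e2⟩ | ⟨e1, -⟩ <;> simp only at e1 hab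
  · subst e1
    obtain rfl : y = x + 1 := e2
    obtain ⟨_, _, _, _, _, _, k, -⟩ := gad_lat (G := G) (n := n) x
    exact ⟨_, _, _, _, _, _, k⟩
  · subst e1
    obtain rfl : x = y + 1 := by simp only at e2; omega
    obtain ⟨_, _, _, _, _, _, -, k⟩ := gad_lat (G := G) (n := n) y
    exact ⟨_, _, _, _, _, _, k⟩
  · subst e1
    exact gad_ch e2
  · omega

/-- connection of adjacent points all of whose neighbours, except `z`, are in the domain -/
theorem gadget {p : ℝ≥0∞} (hp : p ≤ 1) {F : Set Pt} {Ω : Finset (Pt × Pt)}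
    (hΩ : ∀ u ∈ F, ∀ u' ∈ F, G.Adj u u' → (u, u') ∈ Ω) {a b z : Pt} (h : G.Adj a b) (h1 : 1 ≤ a.1)
    (hab : a.1 ≤ b.1) (ha : a ∈ F) (hA : ∀ v, G.Adj a v → v ∈ F)
    (hB : ∀ v, G.Adj v b → v ≠ z → v ∈ F) :
    r2' p ≤ PS G.gr F p Ω a b ∧ (¬G.Adj z b → r2 p ≤ PS G.gr F p Ω a b) := by
  obtain ⟨w, x, x', v, y, y', k⟩ := exists_gad h h1 hab
  by_cases e : x' = z
  · have := k.symm.full hp ⟨hA _ h, hA _ k.r.aw, hA _ k.r.ax, hB _ k.r.xb (e ▸ k.n7.symm),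
      hA _ k.l.aw, hA _ k.l.ax⟩ ha hΩ
    exact ⟨this.1, fun e' => absurd (e ▸ k.l.xb) e'⟩
  · have := k.full hp ⟨hA _ h, hA _ k.l.aw, hA _ k.l.ax, hB _ k.l.xb e, hA _ k.r.aw, hA _ k.r.ax⟩
      ha hΩ
    exact ⟨this.1, fun e' => this.2 (hB _ k.r.xb fun e'' => e' (e'' ▸ k.r.xb))⟩

end Gr.Grid
end Pool.Agent.P.MP_e4ac67_pr
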