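import Pool.Agent.P.MP_e4ac67_pr.EXLib

/-! Correlation inequalities, independence and change of density for finite product measures. -/

open scoped ENNReal

namespace Pool.Agent.P.MP_e4ac67_pr

variable {ι : Type} {Ω : Finset ι} {p : ℝ≥0∞} {f g : Finset ι → ℝ≥0∞}

namespace Hr

theorem step1 (hp : p ≤ 1) {a b c d : ℝ≥0∞} (h1 : a ≤ b) (h2 : c ≤ d) :
    (p * b + (1 - p) * a) * (p * d + (1 - p) * c) ≤ p * (b * d) + (1 - p) * (a * c) := by
  obtain ⟨x, rfl⟩ := exists_add_of_le h1
  obtain ⟨y, rfl⟩ := exists_add_of_le h2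
  have e : p + (1 - p) = 1 := add_tsub_cancel_of_le hp
  generalize 1 - p = q at e
  have h3 : p * p * (x * y) ≤ p * (x * y) := by
    gcongr
    exact mul_le_of_le_one_left' hp
  calc _ = (p + q) * (p + q) * (a * c) + (p + q) * p * (x * c + a * y) + p * p * (x * y) := by ring
    _ ≤ (p + q) * (a * c) + p * (x * c + a * y) + p * (x * y) := by
        rw [e]; simp only [one_mul]; gcongr
    _ = _ := by ring

theorem step2 (hp : p ≤ 1) {a b c d : ℝ≥0∞} (h1 : a ≤ b) (h2 : d ≤ c) :
    p * (b * d) + (1 - p) * (a * c) ≤ (p * b + (1 - p) * a) * (p * d + (1 - p) * c) := by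
  obtain ⟨x, rfl⟩ := exists_add_of_le h1
  obtain ⟨y, rfl⟩ := exists_add_of_le h2
  have e : p + (1 - p) = 1 := add_tsub_cancel_of_le hp
  generalize 1 - p = q at e
  calc _ = (p + q) * (a * d) + (p * (x * d) + q * (a * y)) := by ring
    _ ≤ (p + q) * (p + q) * (a * d) + (p + q) * (p * (x * d) + q * (a * y)) + p * q * (x * y) := by
        rw [e]; simp only [one_mul]; exact le_self_add
    _ = _ := by ring

theorem mono_av [DecidableEq ι] (a : ι) (p : ℝ≥0∞) (hf : Monotone f) :
    Monotone fun s => p * f (insert a s) + (1 - p) * f s := fun _ _ h =>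
  add_le_add (mul_le_mul_right (hf (Finset.insert_subset_insert a h)) _)
    (mul_le_mul_right (hf h) _)

theorem anti_av [DecidableEq ι] (a : ι) (p : ℝ≥0∞) (hf : Antitone f) :
    Antitone fun s => p * f (insert a s) + (1 - p) * f s := fun _ _ h =>
  add_le_add (mul_le_mul_right (hf (Finset.insert_subset_insert a h)) _)
    (mul_le_mul_right (hf h) _)

theorem convex_step {γ p x y : ℝ} (hγ : 1 ≤ γ) (h0 : 0 ≤ p) (h1 : p ≤ 1) (hy : 0 ≤ y)
    (hxy : y ≤ x) : p ^ γ * x ^ γ + (1 - p ^ γ) * y ^ γ ≤ (p * x + (1 - p) * y) ^ γ := by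
  have hx : 0 ≤ x := hy.trans hxy
  have hc := convexOn_rpow hγ
  have ha : 0 ≤ p * y := mul_nonneg h0 hy
  have hd : 0 ≤ (1 - p) * y := mul_nonneg (by linarith) hy
  have hu : 0 ≤ p * x - p * y := by nlinarith
  have key : (p * x) ^ γ + y ^ γ ≤ (p * y) ^ γ + (p * x + (1 - p) * y) ^ γ := by
    rcases (add_nonneg hu hd).eq_or_lt with h | h
    · have e1 : p * x = p * y := by linarith
      have e2 : p * x + (1 - p) * y = y := by linarith
      rw [e2, e1]
    · set L := p * x - p * y + (1 - p) * y with hL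
      have hb : p * x + (1 - p) * y ∈ Set.Ici (0 : ℝ) := by
        rw [Set.mem_Ici]
        nlinarith
      have w1 : 0 ≤ (1 - p) * y / L := div_nonneg hd h.le
      have w2 : 0 ≤ (p * x - p * y) / L := div_nonneg hu h.le
      have ws : (1 - p) * y / L + (p * x - p * y) / L = 1 := by
        field_simp
        linarith
      have k1 := hc.2 (show p * y ∈ Set.Ici (0 : ℝ) from ha) hb w1 w2 ws
      have k2 := hc.2 (show p * y ∈ Set.Ici (0 : ℝ) from ha) hb w2 w1 (by linarith)
      simp only [smul_eq_mul] at k1 k2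
      have e1 : (1 - p) * y / L * (p * y) + (p * x - p * y) / L * (p * x + (1 - p) * y) = p * x := by
        field_simp
        rw [hL]
        ring
      have e2 : (p * x - p * y) / L * (p * y) + (1 - p) * y / L * (p * x + (1 - p) * y) = y := by
        field_simp
        rw [hL]
        ring
      rw [e1] at k1
      rw [e2] at k2
      have := add_le_add k1 k2
      calc _ ≤ _ := this
        _ = ((1 - p) * y / L + (p * x - p * y) / L) *
            ((p * y) ^ γ + (p * x + (1 - p) * y) ^ γ) := by ring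
        _ = _ := by rw [ws, one_mul]
  rw [Real.mul_rpow h0 hx, Real.mul_rpow h0 hy] at key
  linarith

theorem step3 {γ : ℝ} (hγ : 1 ≤ γ) (hp : p ≤ 1) {x y : ℝ≥0∞} (hxy : y ≤ x) (hx : x ≠ ⊤) :
    p ^ γ * x ^ γ + (1 - p ^ γ) * y ^ γ ≤ (p * x + (1 - p) * y) ^ γ := by
  have hγ0 : 0 ≤ γ := by linarith
  lift x to NNReal using hx
  lift y to NNReal using ne_top_of_le_ne_top ENNReal.coe_ne_top hxy
  lift p to NNReal using ne_top_of_le_ne_top ENNReal.one_ne_top hp
  have hp' : p ≤ 1 := by exact_mod_cast hp
  have hq : p ^ γ ≤ 1 := NNReal.rpow_le_one hp' hγ0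
  rw [← ENNReal.coe_rpow_of_nonneg _ hγ0, ← ENNReal.coe_rpow_of_nonneg _ hγ0,
    ← ENNReal.coe_rpow_of_nonneg _ hγ0, ← ENNReal.coe_one, ← ENNReal.coe_sub, ← ENNReal.coe_sub,
    ← ENNReal.coe_mul, ← ENNReal.coe_mul, ← ENNReal.coe_mul, ← ENNReal.coe_mul, ← ENNReal.coe_add,
    ← ENNReal.coe_add, ← ENNReal.coe_rpow_of_nonneg _ hγ0, ENNReal.coe_le_coe, ← NNReal.coe_le_coe]
  push_cast [NNReal.coe_sub hp', NNReal.coe_sub hq]
  exact convex_step hγ p.2 (by exact_mod_cast hp') y.2 (by exact_mod_cast hxy)

end Hr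

open Hr

/-- two increasing functions are positively correlated -/
theorem EX_harris (hp : p ≤ 1) (hf : Monotone f) (hg : Monotone g) :
    EX Ω p f * EX Ω p g ≤ EX Ω p fun s => f s * g s := by
  classical
  induction Ω using Finset.induction_on generalizing f g with
  | empty => simp [EX_empty]
  | insert a s ha ih =>
    simp only [EX_insert ha]
    exact (ih (mono_av a p hf) (mono_av a p hg)).trans (EX_mono fun t _ =>
      step1 hp (hf (Finset.subset_insert a t)) (hg (Finset.subset_insert a t)))

/-- an increasing and a decreasing function are negatively correlated -/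
theorem EX_harris_mix (hp : p ≤ 1) (hf : Monotone f) (hg : Antitone g) :
    (EX Ω p fun s => f s * g s) ≤ EX Ω p f * EX Ω p g := by
  classical
  induction Ω using Finset.induction_on generalizing f g with
  | empty => simp [EX_empty]
  | insert a s ha ih =>
    simp only [EX_insert ha]
    exact (EX_mono fun t _ => step2 hp (hf (Finset.subset_insert a t))
      (hg (Finset.subset_insert a t))).trans (ih (mono_av a p hf) (anti_av a p hg))

/-- two decreasing functions are positively correlated -/
theorem EX_harris_anti (hp : p ≤ 1) (hf : Antitone f) (hg : Antitone g) :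
    EX Ω p f * EX Ω p g ≤ EX Ω p fun s => f s * g s := by
  classical
  induction Ω using Finset.induction_on generalizing f g with
  | empty => simp [EX_empty]
  | insert a s ha ih =>
    simp only [EX_insert ha]
    refine (ih (anti_av a p hf) (anti_av a p hg)).trans (EX_mono fun t _ => ?_)
    have := step1 (p := 1 - p) tsub_le_self (hf (Finset.subset_insert a t))
      (hg (Finset.subset_insert a t))
    rw [ENNReal.sub_sub_cancel ENNReal.one_ne_top hp] at this
    simpa only [add_comm] using this

/-- functions of disjoint sets of variables are independent -/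
theorem EX_indep [DecidableEq ι] (hp : p ≤ 1)
    (h : ∀ a, (∀ s, f (insert a s) = f s) ∨ ∀ s, g (insert a s) = g s) :
    (EX Ω p fun s => f s * g s) = EX Ω p f * EX Ω p g := by
  induction Ω using Finset.induction_on generalizing f g with
  | empty => simp [EX_empty]
  | insert a s ha ih =>
    simp only [EX_insert ha]
    rw [← ih fun b => (h b).imp (fun k t => by rw [Finset.insert_comm, k, k (s := t)])
      fun k t => by rw [Finset.insert_comm, k, k (s := t)]]
    refine EX_congr fun t _ => ?_
    rcases h a with k | k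
    · rw [k, EX_split hp]; ring
    · rw [k, EX_split hp]; ring

/-- change of the density for increasing functions -/
theorem EX_rpow {γ : ℝ} (hγ : 1 ≤ γ) (hp : p ≤ 1) (hf : Monotone f) (hfin : ∀ s, f s ≠ ⊤) :
    (EX Ω (p ^ γ) fun s => f s ^ γ) ≤ EX Ω p f ^ γ := by
  classical
  induction Ω using Finset.induction_on generalizing f with
  | empty => simp [EX_empty]
  | insert a s ha ih =>
    simp only [EX_insert ha]
    have h1 : p ≠ ⊤ := ne_top_of_le_ne_top ENNReal.one_ne_top hp
    refine (EX_mono fun t _ => step3 hγ hp (hf (Finset.subset_insert a t)) (hfin _)).trans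
      (ih (mono_av a p hf) fun t => ?_)
    exact ENNReal.add_ne_top.2 ⟨ENNReal.mul_ne_top h1 (hfin _),
      ENNReal.mul_ne_top (ENNReal.sub_ne_top ENNReal.one_ne_top) (hfin _)⟩

theorem ind_monotone {A : Finset ι → Prop} (h : ∀ s t, s ⊆ t → A s → A t) :
    Monotone fun s => ind (A s) := fun s t k => ind_mono (h s t k)

theorem ind_antitone {A : Finset ι → Prop} (h : ∀ s t, s ⊆ t → A t → A s) :
    Antitone fun s => ind (A s) := fun s t k => ind_mono (h s t k)

theorem EX_ind_le_one (hp : p ≤ 1) (A : Finset ι → Prop) : (EX Ω p fun s => ind (A s)) ≤ 1 :=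
  (EX_mono fun _ _ => ind_le_one _).trans (EX_const hp 1).le

/-- the same for events -/
theorem EX_boost {γ : ℝ} (hγ : 1 ≤ γ) (hp : p ≤ 1) {A : Finset ι → Prop}
    (h : ∀ s t, s ⊆ t → A s → A t) :
    (EX Ω (p ^ γ) fun s => ind (A s)) ≤ (EX Ω p fun s => ind (A s)) ^ γ := by
  refine le_trans (EX_mono fun s _ => ?_) (EX_rpow hγ hp (ind_monotone h) fun s =>
    ne_top_of_le_ne_top ENNReal.one_ne_top (ind_le_one _))
  by_cases k : A s
  · simp [ind_of k]
  · simp [ind_of_not k]

end Pool.Agent.P.MP_e4ac67_pr
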