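import Pool.Agent.P.MP_e4ac67_pr.E.Gad

/-! Chains of connections and the joint normalisation by two entrance points. -/

open scoped ENNReal

namespace Pool.Agent.P.MP_e4ac67_pr

section
variable {V K : Type} {G : SimpleGraph V} {key : V → V → K} {F : Set V} {Ω : Finset K}
  {p : ℝ≥0∞}

theorem reach_prod (hp : p ≤ 1) (o : V) (c : ℕ → V) (r : ℕ → ℝ≥0∞) (ρ : ℕ)
    (h : ∀ i < ρ, r i ≤ EX Ω p fun ω => ind (Reach G key F (c i) ω (c (i + 1)))) :
    (EX Ω p fun ω => ind (Reach G key F o ω (c 0))) * ∏ i ∈ Finset.range ρ, r i ≤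
      EX Ω p fun ω => ind (Reach G key F o ω (c ρ)) := by
  induction ρ with
  | zero => simp
  | succ ρ ih =>
    rw [Finset.prod_range_succ, ← mul_assoc]
    exact (mul_le_mul' (ih fun i hi => h i (by omega)) (h ρ (by omega))).trans
      (reach_chain hp _ _ _ _)

/-- two independent spokes -/
theorem EX_two_spokes {ι : Type} [DecidableEq ι] {Ω : Finset ι} (hp : p ≤ 1) {a b : ι}
    (ha : a ∈ Ω) (hb : b ∈ Ω) (hab : a ≠ b) {A B : Finset ι → Prop}
    (h1 : Ins (fun s => ind (A s)) a) (h2 : Ins (fun s => ind (B s)) a)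
    (h3 : Ins (fun s => ind (B s)) b) :
    p * ((EX Ω p fun s => ind (A s)) + (1 - p) * EX Ω p fun s => ind (B s)) ≤
      EX Ω p fun s => ind ((A s ∧ a ∈ s) ∨ (B s ∧ b ∈ s)) := by
  rw [mul_add, ← EX_mem (f := fun s => ind (A s)) hp ha h1, mul_left_comm,
    ← EX_mem (f := fun s => ind (B s)) hp hb h3,
    ← EX_notMem (f := fun s => ind (b ∈ s) * ind (B s)) hp ha fun s => by
      rw [show ind (B (insert a s)) = ind (B s) from h2 s,
        ind_congr (show b ∈ insert a s ↔ b ∈ s by simp [hab.symm])], ← EX_add]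
  refine EX_mono fun s _ => ?_
  by_cases k : a ∈ s
  · rw [ind_of k, ind_of_not (not_not.2 k), one_mul, zero_mul, add_zero]
    exact ind_mono fun e => Or.inl ⟨e, k⟩
  · rw [ind_of_not k, ind_of k, one_mul, zero_mul, zero_add, ← ind_and]
    exact ind_mono fun e => Or.inr e.symm

end

theorem joint_half {q t a b C D K : ℝ≥0∞} (hq : q ≠ ⊤) (h1 : t * a ≤ b) (h2 : b ≤ a)
    (k1 : C + t * D ≤ K * (1 + q * t)) (k2 : C + D ≤ K * (1 + q)) :
    C * a + D * b ≤ K * (a + q * b) := by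
  rcases eq_or_ne K ⊤ with rfl | hK
  · rcases eq_or_ne a 0 with rfl | ha
    · obtain rfl : b = 0 := nonpos_iff_eq_zero.1 h2
      simp
    · rw [ENNReal.top_mul (by simp [ha])]
      exact le_top
  rcases le_total D (K * q) with e | e
  · obtain ⟨d, rfl⟩ := exists_add_of_le h1
    calc _ = (C + t * D) * a + D * d := by ring
      _ ≤ K * (1 + q * t) * a + K * q * d := by gcongr
      _ = _ := by ring
  · obtain ⟨d, rfl⟩ := exists_add_of_le e
    have k3 : C + d ≤ K := by
      refine (ENNReal.add_le_add_iff_right (ENNReal.mul_ne_top hK hq)).1 ?_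
      calc _ = C + (K * q + d) := by ring
        _ ≤ _ := k2
        _ = _ := by ring
    calc _ = C * a + d * b + K * q * b := by ring
      _ ≤ C * a + d * a + K * q * b := by gcongr
      _ = (C + d) * a + K * q * b := by ring
      _ ≤ K * a + K * q * b := by gcongr
      _ = _ := by ring

/-- joint normalisation -/
theorem joint_le {p q t a b C D K P : ℝ≥0∞} (hq : q ≠ ⊤) (h1 : t * a ≤ b) (h2 : t * b ≤ a)
    (g1 : p * (a + q * b) ≤ P) (g2 : p * (b + q * a) ≤ P)
    (k1 : C + t * D ≤ K * p * (1 + q * t)) (k2 : D + t * C ≤ K * p * (1 + q * t))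
    (k3 : C + D ≤ K * p * (1 + q)) : C * a + D * b ≤ K * P := by
  rcases le_total b a with e | e
  · exact (joint_half hq h1 e k1 k3).trans (by rw [mul_assoc]; gcongr)
  · rw [add_comm] at k3 ⊢
    exact (joint_half hq h2 e k2 k3).trans (by rw [mul_assoc]; gcongr)

theorem r1_ofReal {p : ℝ} (h0 : 0 ≤ p) (h1 : p ≤ 1) :
    r1 (ENNReal.ofReal p) = ENNReal.ofReal (p + (1 - p) * (p * p)) := by
  rw [r1, ← ENNReal.ofReal_mul h0, par_ofReal h0 h1 (by positivity)]

theorem le_par (x y : ℝ≥0∞) : x ≤ par x y := le_self_add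

theorem r1_le_one {p : ℝ≥0∞} (hp : p ≤ 1) : r1 p ≤ 1 := par_le_one hp (mul_le_one' hp hp)

theorem r1_mono {p p' : ℝ≥0∞} (h : p ≤ p') (hp : p' ≤ 1) : r1 p ≤ r1 p' :=
  par_mono h hp (mul_le_mul' h h) (mul_le_one' hp hp)

theorem r2_mono {p p' : ℝ≥0∞} (h : p ≤ p') (hp : p' ≤ 1) : r2 p ≤ r2 p' ∧ r2' p ≤ r2' p' := by
  have a := r1_mono h hp
  have b := r1_le_one hp
  have c := mul_le_one' b b
  have d := mul_le_one' b hp
  exact ⟨par_mono h hp (par_mono (mul_le_mul' a a) c (mul_le_mul' a a) c) (par_le_one c c),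
    par_mono h hp (par_mono (mul_le_mul' a a) c (mul_le_mul' a h) d) (par_le_one c d)⟩

end Pool.Agent.P.MP_e4ac67_pr
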