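import Pool.Agent.P.MP_e4ac67_pr.E.Harris

/-! Correlation inequalities variable by variable, renaming of variables. -/

open scoped ENNReal

namespace Pool.Agent.P.MP_e4ac67_pr

variable {ι κ : Type} {Ω : Finset ι} {p : ℝ≥0∞} {f g : Finset ι → ℝ≥0∞}

section
variable [DecidableEq ι]

/-- increasing in the variable `a` -/
def Up (f : Finset ι → ℝ≥0∞) (a : ι) : Prop := ∀ s, f s ≤ f (insert a s)

/-- decreasing in the variable `a` -/
def Dn (f : Finset ι → ℝ≥0∞) (a : ι) : Prop := ∀ s, f (insert a s) ≤ f s

/-- independent of the variable `a` -/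
def Ins (f : Finset ι → ℝ≥0∞) (a : ι) : Prop := ∀ s, f (insert a s) = f s

theorem Up.av {b : ι} (h : Up f b) (a : ι) (p : ℝ≥0∞) :
    Up (fun s => p * f (insert a s) + (1 - p) * f s) b := fun s =>
  add_le_add (mul_le_mul_right (by rw [Finset.insert_comm]; exact h _) _)
    (mul_le_mul_right (h s) _)

theorem Dn.av {b : ι} (h : Dn f b) (a : ι) (p : ℝ≥0∞) :
    Dn (fun s => p * f (insert a s) + (1 - p) * f s) b := fun s =>
  add_le_add (mul_le_mul_right (by rw [Finset.insert_comm]; exact h _) _)
    (mul_le_mul_right (h s) _)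

theorem Ins.av {b : ι} (h : Ins f b) (a : ι) (p : ℝ≥0∞) :
    Ins (fun s => p * f (insert a s) + (1 - p) * f s) b := fun s => by
  simp only
  rw [Finset.insert_comm, h, h s]

theorem Monotone.up (h : Monotone f) (a : ι) : Up f a := fun s => h (Finset.subset_insert a s)

theorem Antitone.dn (h : Antitone f) (a : ι) : Dn f a := fun s => h (Finset.subset_insert a s)

/-- positive correlation, with a condition for each variable -/
theorem EX_pos_cor (hp : p ≤ 1)
    (h : ∀ a, (Up f a ∧ Up g a) ∨ (Dn f a ∧ Dn g a) ∨ Ins f a ∨ Ins g a) :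
    EX Ω p f * EX Ω p g ≤ EX Ω p fun s => f s * g s := by
  induction Ω using Finset.induction_on generalizing f g with
  | empty => simp [EX_empty]
  | insert a s ha ih =>
    simp only [EX_insert ha]
    refine (ih fun b => (h b).imp (fun k => ⟨k.1.av a p, k.2.av a p⟩) (Or.imp
      (fun k => ⟨k.1.av a p, k.2.av a p⟩) (Or.imp (fun k => k.av a p) fun k => k.av a p))).trans
      (EX_mono fun t _ => ?_)
    rcases h a with k | k | k | k
    · exact Hr.step1 hp (k.1 t) (k.2 t)
    · have := Hr.step1 (p := 1 - p) tsub_le_self (k.1 t) (k.2 t)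
      rw [ENNReal.sub_sub_cancel ENNReal.one_ne_top hp] at this
      simpa only [add_comm] using this
    · rw [k, EX_split hp]; exact le_of_eq (by ring)
    · rw [k, EX_split hp]; exact le_of_eq (by ring)

/-- negative correlation, with a condition for each variable -/
theorem EX_neg_cor (hp : p ≤ 1)
    (h : ∀ a, (Up f a ∧ Dn g a) ∨ (Dn f a ∧ Up g a) ∨ Ins f a ∨ Ins g a) :
    (EX Ω p fun s => f s * g s) ≤ EX Ω p f * EX Ω p g := by
  induction Ω using Finset.induction_on generalizing f g with
  | empty => simp [EX_empty]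
  | insert a s ha ih =>
    simp only [EX_insert ha]
    refine le_trans (EX_mono fun t _ => ?_) (ih fun b => (h b).imp
      (fun k => ⟨k.1.av a p, k.2.av a p⟩) (Or.imp (fun k => ⟨k.1.av a p, k.2.av a p⟩)
        (Or.imp (fun k => k.av a p) fun k => k.av a p)))
    rcases h a with k | k | k | k
    · exact Hr.step2 hp (k.1 t) (k.2 t)
    · have := Hr.step2 hp (k.2 t) (k.1 t)
      simpa only [mul_comm] using this
    · rw [k, EX_split hp]; exact le_of_eq (by ring)
    · rw [k, EX_split hp]; exact le_of_eq (by ring)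

/-- variables on which `f` does not depend can be dropped -/
theorem EX_drop (hp : p ≤ 1) {Ω' : Finset ι} (h : Ω ⊆ Ω') (hf : ∀ a ∈ Ω', a ∉ Ω → Ins f a) :
    EX Ω' p f = EX Ω p f := by
  have key : ∀ T : Finset ι, T ⊆ Ω' → EX (T ∪ Ω) p f = EX Ω p f := by
    intro T
    induction T using Finset.induction_on with
    | empty => intro _; rw [Finset.empty_union]
    | insert a s _ ih =>
      intro hT
      have h1 := ih ((Finset.subset_insert a s).trans hT)
      rw [Finset.insert_union]
      by_cases ha : a ∈ s ∪ Ω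
      · rwa [Finset.insert_eq_of_mem ha]
      · rw [EX_insert ha, ← h1]
        refine EX_congr fun t _ => ?_
        rw [hf a (hT (Finset.mem_insert_self a s)) fun k => ha (Finset.mem_union_right _ k),
          EX_split hp]
  simpa [Finset.union_eq_left.2 h] using key Ω' le_rfl

end

/-- injective renaming of the variables -/
theorem EX_image [DecidableEq κ] {φ : ι → κ} (hφ : Set.InjOn φ Ω) (p : ℝ≥0∞)
    (F : Finset κ → ℝ≥0∞) : EX (Ω.image φ) p F = EX Ω p fun s => F (s.image φ) := by
  classical
  induction Ω using Finset.induction_on generalizing F with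
  | empty => simp [EX_empty]
  | insert a s ha ih =>
    have h1 : φ a ∉ s.image φ := fun h => by
      obtain ⟨b, hb, e⟩ := Finset.mem_image.1 h
      exact ha (hφ (by simp [hb]) (by simp) e ▸ hb)
    rw [Finset.image_insert, EX_insert h1, EX_insert ha, ih (hφ.mono (by simp))]
    simp only [Finset.image_insert]

/-- comparison of increasing functions along an injective renaming -/
theorem EX_le_of_inj [DecidableEq κ] {φ : ι → κ} (hφ : Set.InjOn φ Ω) (hp : p ≤ 1)
    {Ω' : Finset κ} (h : ∀ a ∈ Ω, φ a ∈ Ω') {F : Finset κ → ℝ≥0∞} (hF : Monotone F)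
    (hf : ∀ s ⊆ Ω, f s ≤ F (s.image φ)) : EX Ω p f ≤ EX Ω' p F :=
  (EX_mono hf).trans ((EX_image hφ p F).ge.trans
    (EX_mono_set hp (Finset.image_subset_iff.2 h) fun _ _ k => hF k))

section reach
variable {V K : Type} {G : SimpleGraph V} {key : V → V → K} {F F' : Set V} {x y z : V}
  {ω ω' : Finset K}

theorem Reach.trans (h : Reach G key F x ω y) (k : Reach G key F y ω z) : Reach G key F x ω z := by
  induction k with
  | base => exact h
  | step _ h1 h2 h3 ih => exact ih.step h1 h2 h3

theorem Reach.mono2 (h : Reach G key F x ω y) (hF : F ⊆ F') (hω : ω ⊆ ω') :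
    Reach G key F' x ω' y := by
  induction h with
  | base => exact .base
  | step _ h1 h2 h3 ih => exact ih.step h1 (hF h2) (hω h3)

theorem Reach.mem (h : Reach G key F x ω y) (hx : x ∈ F) : y ∈ F := by
  cases h with
  | base => exact hx
  | step _ _ h2 _ => exact h2

theorem Reach.single (h : G.Adj x y) (hy : y ∈ F) (hk : key x y ∈ ω) : Reach G key F x ω y :=
  Reach.base.step h hy hk

theorem reach_monotone (F : Set V) (x y : V) :
    Monotone fun ω : Finset K => ind (Reach G key F x ω y) :=
  ind_monotone fun _ _ h k => k.mono2 le_rfl h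

/-- only keys of darts inside `F` matter -/
theorem Reach.of_insert [DecidableEq K] {a : K} (h : Reach G key F x (insert a ω) y) (hx : x ∈ F)
    (ha : ∀ u ∈ F, ∀ v ∈ F, G.Adj u v → key u v ≠ a) : Reach G key F x ω y := by
  induction h with
  | base => exact .base
  | step h0 h1 h2 h3 ih =>
    exact ih.step h1 h2 ((Finset.mem_insert.1 h3).resolve_left (ha _ (h0.mem hx) _ h2 h1))

theorem reach_ins [DecidableEq K] {a : K} (hx : x ∈ F)
    (ha : ∀ u ∈ F, ∀ v ∈ F, G.Adj u v → key u v ≠ a) (y : V) :
    Ins (fun ω : Finset K => ind (Reach G key F x ω y)) a := fun s =>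
  ind_congr ⟨fun h => h.of_insert hx ha, fun h => h.mono2 le_rfl (Finset.subset_insert a s)⟩

/-- the chain inequality -/
theorem reach_chain {Ω : Finset K} (hp : p ≤ 1) (F : Set V) (x y z : V) :
    (EX Ω p fun ω => ind (Reach G key F x ω y)) * (EX Ω p fun ω => ind (Reach G key F y ω z)) ≤
      EX Ω p fun ω => ind (Reach G key F x ω z) :=
  (EX_harris hp (reach_monotone F x y) (reach_monotone F y z)).trans (EX_mono fun _ _ => by
    rw [← ind_and]; exact ind_mono fun h => h.1.trans h.2)

/-- an open connection contains a self-avoiding one -/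
theorem Reach.simple (h : Reach G key F x ω y) : ∃ (n : ℕ) (f : ℕ → V), f 0 = x ∧ f n = y ∧
    (∀ i < n, G.Adj (f i) (f (i + 1)) ∧ f (i + 1) ∈ F ∧ key (f i) (f (i + 1)) ∈ ω) ∧
    ∀ i ≤ n, ∀ j ≤ n, f i = f j → i = j := by
  induction h with
  | base => exact ⟨0, fun _ => x, rfl, rfl, fun _ h => by omega, fun _ _ _ _ _ => by omega⟩
  | @step u v _ h1 h2 h3 ih =>
    obtain ⟨n, f, a, b, c, d⟩ := ih
    by_cases hv : ∃ i ≤ n, f i = v
    · obtain ⟨i, hi, e⟩ := hv
      exact ⟨i, f, a, e, fun j hj => c j (by omega),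
        fun j hj l hl => d j (by omega) l (by omega)⟩
    · push Not at hv
      refine ⟨n + 1, fun i => if i ≤ n then f i else v, by simp [a], by simp, fun i hi => ?_,
        fun i hi j hj e => ?_⟩
      · rcases (by omega : i < n ∨ i = n) with k | rfl
        · simpa [k.le, Nat.succ_le_of_lt k] using c i k
        · simpa [b] using ⟨h1, h2, h3⟩
      · by_cases k : i ≤ n <;> by_cases k' : j ≤ n <;> simp only [k, k', if_true, if_false] at e
        · exact d i k j k' e
        · exact absurd e (hv i k)
        · exact absurd e.symm (hv j k')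
        · omega

end reach

end Pool.Agent.P.MP_e4ac67_pr
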